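import Mathlib

/-! An identity of Abel and the explicit moments. -/

set_option autoImplicit false

namespace Pool.Agent.Q257.PH

open Finset

theorem altsum (N : ℕ) (hN : 2 ≤ N) :
    ∑ k ∈ range N, (N.choose (k + 1) : ℝ) * ((k : ℝ) + 1) ^ k * (0 - ((k : ℝ) + 1)) ^ (N - (k + 1)) = 0 := by
  have h := congrFun (fwdDiff_iter_pow_eq_zero_of_lt (R := ℝ) (j := N - 1) (n := N) (by omega)) 0
  rw [fwdDiff_iter_eq_sum_shift] at h
  simp only [Pi.zero_apply, zero_add, nsmul_eq_mul, mul_one] at h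
  rw [Finset.sum_range_succ'] at h
  have h0 : ((0 : ℕ) : ℝ) ^ (N - 1) = 0 := by
    rw [Nat.cast_zero]; exact zero_pow (by omega)
  rw [h0, smul_zero, add_zero] at h
  refine Eq.trans (Finset.sum_congr rfl fun k hk => ?_) h
  rw [mem_range] at hk
  rw [zero_sub, neg_pow, zsmul_eq_mul]
  push_cast
  have h1 : ((k : ℝ) + 1) ^ (N - 1) = ((k : ℝ) + 1) ^ k * ((k : ℝ) + 1) ^ (N - (k + 1)) := by
    rw [← pow_add]; congr 1; omega
  rw [h1]; ring

noncomputable def PA (N : ℕ) (q : ℝ) : ℝ :=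
  ∑ k ∈ range N, (N.choose (k + 1) : ℝ) * ((k : ℝ) + 1) ^ k * (q - ((k : ℝ) + 1)) ^ (N - (k + 1))

theorem deriv_PA (N : ℕ) (q : ℝ) : HasDerivAt (PA (N + 1)) (((N : ℝ) + 1) * PA N q) q := by
  unfold PA
  have h : ∀ k ∈ range (N + 1), HasDerivAt (fun q : ℝ => ((N + 1).choose (k + 1) : ℝ) * ((k : ℝ) + 1) ^ k *
      (q - ((k : ℝ) + 1)) ^ (N + 1 - (k + 1)))
      (((N : ℝ) + 1) * (if k < N then (N.choose (k + 1) : ℝ) * ((k : ℝ) + 1) ^ k *
        (q - ((k : ℝ) + 1)) ^ (N - (k + 1)) else 0)) q := by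
    intro k hk
    rw [mem_range] at hk
    by_cases hkN : k < N
    · rw [if_pos hkN]
      have h1 : N + 1 - (k + 1) = (N - (k + 1)) + 1 := by omega
      rw [h1]
      have h2 := (((hasDerivAt_id q).sub_const ((k : ℝ) + 1)).pow ((N - (k + 1)) + 1)).const_mul
        (((N + 1).choose (k + 1) : ℝ) * ((k : ℝ) + 1) ^ k)
      simp only [id] at h2
      refine h2.congr_deriv ?_
      have h3 : ((N + 1).choose (k + 1) : ℝ) * ((N - (k + 1) : ℕ) + 1 : ℝ) =
          ((N : ℝ) + 1) * (N.choose (k + 1) : ℝ) := by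
        have h5 := Nat.choose_mul_succ_eq N (k + 1)
        have h6 : (N - (k + 1)) + 1 = N + 1 - (k + 1) := by omega
        have h7 : (N + 1).choose (k + 1) * ((N - (k + 1)) + 1) = (N + 1) * N.choose (k + 1) := by
          rw [h6, ← h5, mul_comm]
        exact_mod_cast h7
      push_cast
      simp only [Nat.add_sub_cancel, mul_one]
      linear_combination ((k : ℝ) + 1) ^ k * (q - ((k : ℝ) + 1)) ^ (N - (k + 1)) * h3
    · rw [if_neg hkN]
      have h1 : k = N := by omega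
      subst h1
      simp only [Nat.sub_self, pow_zero, mul_one, mul_zero]
      exact hasDerivAt_const _ _
  have h2 := HasDerivAt.fun_sum h
  refine h2.congr_deriv ?_
  rw [← Finset.mul_sum, Finset.sum_range_succ, if_neg (lt_irrefl N), add_zero]
  congr 1
  refine Finset.sum_congr rfl fun k hk => ?_
  rw [mem_range] at hk
  rw [if_pos hk]

theorem abel (N : ℕ) (q : ℝ) : PA (N + 1) q = ((N : ℝ) + 1) * q ^ N := by
  induction N generalizing q with
  | zero => simp [PA]
  | succ N ih =>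
    have h1 : ∀ q : ℝ, HasDerivAt (fun q => PA (N + 1 + 1) q - (((N + 1 : ℕ) : ℝ) + 1) * q ^ (N + 1)) 0 q := by
      intro q
      have h2 := deriv_PA (N + 1) q
      have h3 := (hasDerivAt_pow (N + 1) q).const_mul (((N + 1 : ℕ) : ℝ) + 1)
      refine (h2.sub h3).congr_deriv ?_
      rw [ih]
      simp only [Nat.add_sub_cancel]
      push_cast
      ring
    have h4 := is_const_of_deriv_eq_zero (f := fun q => PA (N + 1 + 1) q - (((N + 1 : ℕ) : ℝ) + 1) * q ^ (N + 1))
      (fun q => (h1 q).differentiableAt) (fun q => (h1 q).deriv) q 0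
    have h5 : PA (N + 1 + 1) 0 = 0 := altsum (N + 1 + 1) (by omega)
    simp only [h5, zero_pow (Nat.succ_ne_zero N), mul_zero, sub_zero] at h4
    linarith

/-- `a n = (n t) ^ (n - 1) / n!` with `n = k + 1` -/
noncomputable def ac (t : ℝ) (k : ℕ) : ℝ := (((k : ℝ) + 1) * t) ^ k / ((k + 1).factorial : ℝ)

/-- `b p = ∑_{k < p} (1 - k / p) (p t) ^ k / k!` -/
noncomputable def bc (t : ℝ) (p : ℕ) : ℝ :=
  ∑ k ∈ range p, (1 - (k : ℝ) / p) * ((p : ℝ) * t) ^ k / (k.factorial : ℝ)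

/-- the rewriting of the double sums -/
theorem double_sum (p : ℕ) (F : ℕ → ℕ → ℝ) :
    ∑ i ∈ range p, ∑ k ∈ range (p - i), F i k = ∑ s ∈ range p, ∑ i ∈ range (s + 1), F i (s - i) := by
  rw [Finset.sum_sigma', Finset.sum_sigma']
  refine Finset.sum_bij' (fun x _ => ⟨x.1 + x.2, x.1⟩) (fun y _ => ⟨y.2, y.1 - y.2⟩) ?_ ?_ ?_ ?_ ?_
  · rintro ⟨i, k⟩ h
    simp only [mem_sigma, mem_range] at h ⊢
    omega
  · rintro ⟨s, i⟩ h
    simp only [mem_sigma, mem_range] at h ⊢
    omega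
  · rintro ⟨i, k⟩ h
    simp only [Sigma.mk.injEq, heq_eq_eq, true_and]
    omega
  · rintro ⟨s, i⟩ h
    simp only [mem_sigma, mem_range] at h
    simp only [Sigma.mk.injEq, heq_eq_eq, and_true]
    omega
  · rintro ⟨i, k⟩ h
    simp

theorem bc_eq (t : ℝ) (q : ℕ) : bc t q =
    ∑ k ∈ range q, ((q : ℝ) ^ k - k * (q : ℝ) ^ (k - 1)) * t ^ k / (k.factorial : ℝ) := by
  unfold bc
  refine Finset.sum_congr rfl fun k hk => ?_
  rw [mem_range] at hk
  have hq : (q : ℝ) ≠ 0 := by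
    have : 0 < q := by omega
    positivity
  rw [mul_pow]
  have h1 : (1 - (k : ℝ) / q) * ((q : ℝ) ^ k) = (q : ℝ) ^ k - k * (q : ℝ) ^ (k - 1) := by
    rcases Nat.eq_zero_or_pos k with h | h
    · subst h; simp
    · have : (q : ℝ) ^ k = q ^ (k - 1) * q := by
        rw [← pow_succ]; congr 1; omega
      rw [this]; field_simp
  rw [← h1]; ring

theorem PA_div (s : ℕ) (q : ℝ) : ∑ i ∈ range s, ((i : ℝ) + 1) ^ i / ((i + 1).factorial : ℝ) *
    ((q - ((i : ℝ) + 1)) ^ (s - (i + 1)) / ((s - (i + 1)).factorial : ℝ)) = PA s q / (s.factorial : ℝ) := by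
  unfold PA
  rw [Finset.sum_div]
  refine Finset.sum_congr rfl fun i hi => ?_
  rw [mem_range] at hi
  have h1 : (s.choose (i + 1) : ℝ) * ((i + 1).factorial : ℝ) * ((s - (i + 1)).factorial : ℝ) = s.factorial := by
    exact_mod_cast Nat.choose_mul_factorial_mul_factorial (show i + 1 ≤ s by omega)
  have h2 : ((i + 1).factorial : ℝ) ≠ 0 := by positivity
  have h3 : ((s - (i + 1)).factorial : ℝ) ≠ 0 := by positivity
  have h4 : (s.factorial : ℝ) ≠ 0 := by positivity
  rw [← h1]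
  have h5 : (s.choose (i + 1) : ℝ) ≠ 0 := by
    have := Nat.choose_pos (show i + 1 ≤ s by omega)
    positivity
  field_simp

/-- the relation between the `b` and the `a` -/
theorem bc_rec (t : ℝ) (j : ℕ) : bc t (j + 1) = ac t j + ∑ i ∈ range j, ac t i * bc t (j - i) := by
  have h1 : ∑ i ∈ range j, ac t i * bc t (j - i) = ∑ s ∈ range j,
      (((j : ℝ) + 1) ^ s - s * ((j : ℝ) + 1) ^ (s - 1)) * t ^ s / (s.factorial : ℝ) := by
    have h2 : ∑ i ∈ range j, ac t i * bc t (j - i) = ∑ i ∈ range j, ∑ k ∈ range (j - i),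
        ac t i * (((((j - i : ℕ) : ℝ)) ^ k - k * ((j - i : ℕ) : ℝ) ^ (k - 1)) * t ^ k / (k.factorial : ℝ)) := by
      refine Finset.sum_congr rfl fun i _ => ?_
      rw [bc_eq, Finset.mul_sum]
    rw [h2, double_sum]
    refine Finset.sum_congr rfl fun s hs => ?_
    rw [mem_range] at hs
    have h3 := PA_div (s + 1) ((j : ℝ) + 1)
    have h4 := PA_div s ((j : ℝ) + 1)
    rw [abel] at h3
    have h5 : PA s ((j : ℝ) + 1) = s * ((j : ℝ) + 1) ^ (s - 1) := by
      rcases Nat.eq_zero_or_pos s with h | h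
      · subst h; simp [PA]
      · obtain ⟨r, rfl⟩ : ∃ r, s = r + 1 := ⟨s - 1, by omega⟩
        rw [abel]; push_cast; rfl
    rw [h5] at h4
    have h6 : ((s : ℝ) + 1) * ((j : ℝ) + 1) ^ s / ((s + 1).factorial : ℝ) = ((j : ℝ) + 1) ^ s / (s.factorial : ℝ) := by
      rw [Nat.factorial_succ]; push_cast
      have : (s : ℝ) + 1 ≠ 0 := by positivity
      field_simp
    rw [h6] at h3
    have h7 : (((j : ℝ) + 1) ^ s - s * ((j : ℝ) + 1) ^ (s - 1)) * t ^ s / (s.factorial : ℝ) =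
        t ^ s * (((j : ℝ) + 1) ^ s / (s.factorial : ℝ) - s * ((j : ℝ) + 1) ^ (s - 1) / (s.factorial : ℝ)) := by ring
    rw [h7, ← h3, ← h4, Finset.sum_range_succ _ s, Finset.sum_range_succ _ s]
    rw [add_sub_right_comm, ← Finset.sum_sub_distrib, mul_add, Finset.mul_sum]
    congr 1
    · refine Finset.sum_congr rfl fun i hi => ?_
      rw [mem_range] at hi
      unfold ac
      have e1 : ((j - i : ℕ) : ℝ) = (j : ℝ) + 1 - ((i : ℝ) + 1) := by
        rw [Nat.cast_sub (by omega)]; ring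
      have e2 : s + 1 - (i + 1) = s - i := by omega
      have e3 : s - (i + 1) = s - i - 1 := by omega
      have e4 : ((s - i).factorial : ℝ) = ((s - i : ℕ) : ℝ) * ((s - i - 1).factorial : ℝ) := by
        have : s - i = (s - i - 1) + 1 := by omega
        conv_lhs => rw [this, Nat.factorial_succ]
        rw [show s - i - 1 + 1 = s - i by omega]
        push_cast; ring
      rw [e1, e2, e3, e4, mul_pow]
      have e5 : t ^ s = t ^ i * t ^ (s - i) := by rw [← pow_add]; congr 1; omega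
      rw [e5]
      have e6 : ((s - i : ℕ) : ℝ) ≠ 0 := by
        have : 0 < s - i := by omega
        positivity
      have e7 : ((s - i - 1).factorial : ℝ) ≠ 0 := by positivity
      have e8 : ((i + 1).factorial : ℝ) ≠ 0 := by positivity
      field_simp
    · unfold ac
      simp only [Nat.sub_self, pow_zero, Nat.factorial_zero, Nat.cast_one, Nat.cast_zero, zero_mul, sub_zero,
        mul_one, div_one]
      rw [mul_pow]; ring
  rw [h1, bc_eq, Finset.sum_range_succ]
  push_cast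
  rw [add_comm]
  congr 1
  unfold ac
  rw [Nat.factorial_succ, mul_pow]
  push_cast
  have e8 : ((j).factorial : ℝ) ≠ 0 := by positivity
  have e9 : (j : ℝ) + 1 ≠ 0 := by positivity
  have e10 : ((j : ℝ) + 1) * (((j : ℝ) + 1) ^ j - j * ((j : ℝ) + 1) ^ (j - 1)) = ((j : ℝ) + 1) ^ j := by
    rcases Nat.eq_zero_or_pos j with h | h
    · subst h; simp
    · have : ((j : ℝ) + 1) ^ j = ((j : ℝ) + 1) ^ (j - 1) * ((j : ℝ) + 1) := by
        rw [← pow_succ]; congr 1; omega
      rw [this]; ring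
  rw [div_eq_div_iff e8 (by positivity)]
  linear_combination t ^ j * (j.factorial : ℝ) * e10

/-- the derivative of `b` -/
theorem deriv_bc (t : ℝ) (j : ℕ) : HasDerivAt (fun t => bc t (j + 1))
    (∑ i ∈ range j, ((j : ℝ) - i) * ac t i * bc t (j - i)) t := by
  have h1 : ∑ i ∈ range j, ((j : ℝ) - i) * ac t i * bc t (j - i) = ∑ s ∈ range j,
      ((j : ℝ) - s) * (((j : ℝ) + 1) ^ s * t ^ s / (s.factorial : ℝ)) := by
    have h2 : ∑ i ∈ range j, ((j : ℝ) - i) * ac t i * bc t (j - i) = ∑ i ∈ range j, ∑ k ∈ range (j - i),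
        ac t i * ((((j : ℝ) - i) - k) * ((((j - i : ℕ) : ℝ)) ^ k * t ^ k / (k.factorial : ℝ))) := by
      refine Finset.sum_congr rfl fun i hi => ?_
      rw [mem_range] at hi
      unfold bc
      rw [Finset.mul_sum]
      refine Finset.sum_congr rfl fun k _ => ?_
      have e1 : ((j - i : ℕ) : ℝ) = (j : ℝ) - i := by
        rw [Nat.cast_sub (by omega)]
      have e2 : (j : ℝ) - i ≠ 0 := by
        rw [← e1]
        have : 0 < j - i := by omega
        positivity
      rw [e1, mul_pow]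
      field_simp
    rw [h2, double_sum]
    refine Finset.sum_congr rfl fun s hs => ?_
    rw [mem_range] at hs
    have h3 := PA_div (s + 1) ((j : ℝ) + 1)
    rw [abel] at h3
    have h6 : ((s : ℝ) + 1) * ((j : ℝ) + 1) ^ s / ((s + 1).factorial : ℝ) = ((j : ℝ) + 1) ^ s / (s.factorial : ℝ) := by
      rw [Nat.factorial_succ]; push_cast
      have : (s : ℝ) + 1 ≠ 0 := by positivity
      field_simp
    rw [h6] at h3
    have h7 : ((j : ℝ) - s) * (((j : ℝ) + 1) ^ s * t ^ s / (s.factorial : ℝ)) =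
        (((j : ℝ) - s) * t ^ s) * (((j : ℝ) + 1) ^ s / (s.factorial : ℝ)) := by ring
    rw [h7, ← h3, Finset.mul_sum]
    refine Finset.sum_congr rfl fun i hi => ?_
    rw [mem_range] at hi
    unfold ac
    have e1 : ((j - i : ℕ) : ℝ) = (j : ℝ) + 1 - ((i : ℝ) + 1) := by
      rw [Nat.cast_sub (by omega)]; ring
    have e2 : s + 1 - (i + 1) = s - i := by omega
    have e3 : (((s - i : ℕ) : ℕ) : ℝ) = (s : ℝ) - i := by
      rw [Nat.cast_sub (by omega)]
    rw [e1, e2, e3, mul_pow]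
    have e5 : t ^ s = t ^ i * t ^ (s - i) := by rw [← pow_add]; congr 1; omega
    rw [e5]
    ring
  rw [h1]
  have h8 : (fun t : ℝ => bc t (j + 1)) = fun t : ℝ => (∑ k ∈ range j,
      (1 - ((k + 1 : ℕ) : ℝ) / ((j + 1 : ℕ) : ℝ)) * (((j + 1 : ℕ) : ℝ) * t) ^ (k + 1) / ((k + 1).factorial : ℝ)) + 1 := by
    funext t
    unfold bc
    rw [Finset.sum_range_succ']
    simp
  rw [h8]
  refine HasDerivAt.add_const _ ?_
  refine HasDerivAt.fun_sum fun k _ => ?_
  have h9 := ((((hasDerivAt_id t).const_mul ((j + 1 : ℕ) : ℝ)).pow (k + 1)).const_mul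
    (1 - ((k + 1 : ℕ) : ℝ) / ((j + 1 : ℕ) : ℝ))).div_const ((k + 1).factorial : ℝ)
  simp only [id] at h9
  refine h9.congr_deriv ?_
  rw [Nat.factorial_succ]
  simp only [Nat.add_sub_cancel, mul_one]
  push_cast
  have e1 : (j : ℝ) + 1 ≠ 0 := by positivity
  have e2 : (k : ℝ) + 1 ≠ 0 := by positivity
  have e3 : (k.factorial : ℝ) ≠ 0 := by positivity
  rw [mul_pow]
  field_simp
  ring

end Pool.Agent.Q257.PH
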