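import Pool.Agent.Q257.PH.Mom

/-! One Euler step, and the discrete Gronwall inequality. -/

set_option autoImplicit false

namespace Pool.Agent.Q257.PH

open Finset

/-- the distance to the moments at time `t` -/
noncomputable def Zd (P : ℕ) (a : ℕ → ℝ) (t : ℝ) : ℝ := ∑ j ∈ range P, |a (j + 1) - mm t (j + 1)|

theorem Zd_nonneg (P : ℕ) (a : ℕ → ℝ) (t : ℝ) : 0 ≤ Zd P a t :=
  Finset.sum_nonneg fun _ _ => abs_nonneg _

theorem euler_step (P : ℕ) : ∃ K C : ℝ, 0 ≤ K ∧ 0 ≤ C ∧ ∀ (a a' x : ℕ → ℝ) (t h : ℝ), 0 ≤ t → 0 ≤ h →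
    (∀ k, |x (k + 1)| ≤ 1) → (∀ j, a' (j + 1) = a (j + 1) + DD x j * h) →
    Zd P a' (t + h) ≤ (1 + K * h) * Zd P a t + K * h * (∑ k ∈ range P, |x (k + 1) - a (k + 1)|) +
      C * h ^ 2 := by
  choose C hC0 hC using DD_lip
  obtain ⟨C1, hC1, h1⟩ := mm_step P
  refine ⟨∑ j ∈ range P, C j, P * C1, Finset.sum_nonneg fun i _ => hC0 i, by positivity,
    fun a a' x t h ht hh hx ha => ?_⟩
  obtain ⟨Y, hY⟩ : ∃ Y, Y = ∑ k ∈ range P, |x (k + 1) - a (k + 1)| := ⟨_, rfl⟩
  rw [← hY]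
  have key : ∀ j ∈ range P, |a' (j + 1) - mm (t + h) (j + 1)| ≤
      |a (j + 1) - mm t (j + 1)| + h * (C j * (Y + Zd P a t)) + C1 * h ^ 2 := by
    intro j hj
    rw [mem_range] at hj
    have e1 : a' (j + 1) - mm (t + h) (j + 1) = (a (j + 1) - mm t (j + 1)) + h * (DD x j - DD (mm t) j) -
        (mm (t + h) (j + 1) - mm t (j + 1) - h * DD (mm t) j) := by
      rw [ha]; ring
    rw [e1]
    refine (abs_sub _ _).trans (add_le_add ((abs_add_le _ _).trans (add_le_add le_rfl ?_)) (h1 j hj t h ht hh))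
    rw [abs_mul, abs_of_nonneg hh]
    refine mul_le_mul_of_nonneg_left ?_ hh
    refine (hC j x (mm t) hx (mm_abs t ht)).2 _ (fun k hk => ?_)
    have e2 : x (k + 1) - mm t (k + 1) = (x (k + 1) - a (k + 1)) + (a (k + 1) - mm t (k + 1)) := by ring
    rw [e2]
    refine (abs_add_le _ _).trans (add_le_add ?_ ?_)
    · rw [hY]
      exact Finset.single_le_sum (f := fun k => |x (k + 1) - a (k + 1)|) (fun i _ => abs_nonneg _)
        (mem_range.2 (by omega))
    · exact Finset.single_le_sum (f := fun k => |a (k + 1) - mm t (k + 1)|) (fun i _ => abs_nonneg _)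
        (mem_range.2 (by omega))
  refine (Finset.sum_le_sum key).trans (le_of_eq ?_)
  rw [Finset.sum_add_distrib, Finset.sum_add_distrib, ← Finset.mul_sum, ← Finset.sum_mul, Finset.sum_const,
    Finset.card_range, nsmul_eq_mul]
  change Zd P a t + _ + _ = _
  ring

theorem gronwall (z : ℕ → ℝ) (K d : ℝ) (hK : 0 ≤ K) (hd : 0 ≤ d) (h0 : z 0 ≤ 0)
    (h : ∀ L, z (L + 1) ≤ (1 + K) * z L + d) (L : ℕ) : z L ≤ L * Real.exp (K * L) * d := by
  have h1 : ∀ L : ℕ, z L ≤ L * (1 + K) ^ L * d := by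
    intro L
    induction L with
    | zero => simpa using h0
    | succ L ih =>
      refine (h L).trans ?_
      have h2 : (1 + K) * z L ≤ (1 + K) * (L * (1 + K) ^ L * d) := mul_le_mul_of_nonneg_left ih (by linarith)
      have h3 : 1 ≤ (1 + K) ^ (L + 1) := one_le_pow₀ (by linarith)
      push_cast
      have h4 : d ≤ (1 + K) ^ (L + 1) * d := le_mul_of_one_le_left hd h3
      have h5 : (1 + K) * (L * (1 + K) ^ L * d) = L * (1 + K) ^ (L + 1) * d := by ring
      linarith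
  refine (h1 L).trans ?_
  have h2 : (1 + K) ^ L ≤ Real.exp (K * L) := by
    calc (1 + K) ^ L ≤ (Real.exp K) ^ L := pow_le_pow_left₀ (by linarith) (by linarith [Real.add_one_le_exp K]) L
      _ = Real.exp (K * L) := by rw [← Real.exp_nat_mul]; ring_nf
  exact mul_le_mul_of_nonneg_right (mul_le_mul_of_nonneg_left h2 (by positivity)) hd

end Pool.Agent.Q257.PH
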