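import Pool.Agent.Q257.PH.Good
import Pool.Agent.Q257.PH.Euler

/-! The deterministic chain and the existence of the limit measure. -/

set_option autoImplicit false

namespace Pool.Agent.Q257.PH

open Finset Matrix MeasureTheory Filter Topology

variable {N : ℕ}

theorem am_one (hN : 1 ≤ N) (k : ℕ) : am (1 : Matrix (Fin N) (Fin N) ℂ) k = 1 := by
  unfold am
  rw [one_pow, trace_one, Fintype.card_fin]
  simp only [Complex.natCast_re]
  exact div_self (by positivity)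

theorem proj_vec (v : Fin N → ℂ) (hv : star v ⬝ᵥ v = 1) :
    (1 - vecMulVec v (star v)) * (1 - vecMulVec v (star v)) = 1 - vecMulVec v (star v) ∧
      (1 - vecMulVec v (star v))ᴴ = 1 - vecMulVec v (star v) := by
  refine compl_proj ?_ ?_
  · rw [vecMulVec_mul_vecMulVec, hv]
    simp
  · rw [conjTranspose_vecMulVec, star_star]

theorem det_step (hN : 1 ≤ N) {A : Matrix (Fin N) (Fin N) ℂ} (hA : Good A) :
    ∃ A' : Matrix (Fin N) (Fin N) ℂ, Good A' ∧ ∀ j, am A' (j + 1) = am A (j + 1) + DD (am A) j / N := by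
  obtain ⟨U, hU, h⟩ := quad_pow hA hA.1.1
  have hUU : Uᴴ * U = 1 := by
    rw [mem_unitaryGroup_iff', star_eq_conjTranspose] at hU
    exact hU
  obtain ⟨s, hs⟩ : ∃ s : ℝ, s = Real.sqrt (1 / N) := ⟨_, rfl⟩
  have hss : s * s = 1 / N := by
    rw [hs]; exact Real.mul_self_sqrt (by positivity)
  obtain ⟨v, hv⟩ : ∃ v : Fin N → ℂ, v = U *ᵥ (fun _ => (s : ℂ)) := ⟨_, rfl⟩
  have h1 : Uᴴ *ᵥ v = fun _ => (s : ℂ) := by
    rw [hv, mulVec_mulVec, hUU, one_mulVec]
  have h2 : ∀ i, Ac i (Uᴴ *ᵥ v) = 1 / N := by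
    intro i
    rw [h1]
    unfold Ac
    rw [Complex.normSq_ofReal, hss]
  have h3 : xm A v = am A := by
    funext k
    unfold xm am
    rw [h, Complex.ofReal_re, trace_pow hA hA.1.1, Complex.ofReal_re, Finset.sum_div]
    refine Finset.sum_congr rfl fun i _ => ?_
    rw [h2, mul_one_div]
  have h4 : star v ⬝ᵥ v = 1 := by
    have h5 := h v 0
    rw [pow_zero, one_mulVec] at h5
    rw [h5]
    simp only [pow_zero, one_mul, h2, Finset.sum_const, Finset.card_univ, Fintype.card_fin, nsmul_eq_mul]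
    have : (N : ℝ) * (1 / N) = 1 := by field_simp
    rw [this, Complex.ofReal_one]
  have h5 := proj_vec v h4
  refine ⟨(1 - vecMulVec v (star v)) * A * (1 - vecMulVec v (star v)), good_compress hA h5.1 h5.2, fun j => ?_⟩
  have h6 := am_step hA v j
  rw [h3] at h6
  rw [← h6]
  unfold am
  rw [trace_compress A _ h5.1 j]

theorem det_chain (hN : 1 ≤ N) : ∃ A : ℕ → Matrix (Fin N) (Fin N) ℂ, (∀ L, Good (A L)) ∧ A 0 = 1 ∧
    ∀ L j, am (A (L + 1)) (j + 1) = am (A L) (j + 1) + DD (am (A L)) j / N := by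
  choose! f hf1 hf2 using fun (A : Matrix (Fin N) (Fin N) ℂ) (hA : Good A) => det_step hN hA
  have hG : ∀ L, Good (Nat.rec (motive := fun _ => Matrix (Fin N) (Fin N) ℂ) 1 (fun _ B => f B) L) := by
    intro L
    induction L with
    | zero => exact good_one
    | succ L ih => exact hf1 _ ih
  exact ⟨fun L => Nat.rec (motive := fun _ => Matrix (Fin N) (Fin N) ℂ) 1 (fun _ B => f B) L, hG, rfl,
    fun L j => hf2 _ (hG L) j⟩

theorem det_bound (P : ℕ) : ∃ K C : ℝ, 0 ≤ K ∧ 0 ≤ C ∧ ∀ N : ℕ, 1 ≤ N →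
    ∀ A : ℕ → Matrix (Fin N) (Fin N) ℂ, (∀ L, Good (A L)) → A 0 = 1 →
      (∀ L j, am (A (L + 1)) (j + 1) = am (A L) (j + 1) + DD (am (A L)) j / N) →
      ∀ L : ℕ, Zd P (am (A L)) (L / N) ≤ ((L : ℝ) / N) * Real.exp (K * ((L : ℝ) / N)) * (C / N) := by
  obtain ⟨K, C, hK, hC, h⟩ := euler_step P
  refine ⟨K, C, hK, hC, fun N hN A hA hA0 hA1 L => ?_⟩
  have hN0 : (0 : ℝ) < N := by positivity
  have h0 : Zd P (am (A 0)) ((0 : ℕ) / N) ≤ 0 := by
    unfold Zd
    rw [hA0]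
    refine le_of_eq (Finset.sum_eq_zero fun j _ => ?_)
    rw [am_one hN, Nat.cast_zero, zero_div, mm_zero]
    simp
  have h1 := gronwall (fun L => Zd P (am (A L)) (L / N)) (K * (1 / N)) (C * (1 / N) ^ 2) (by positivity)
    (by positivity) h0 (fun L => by
      have h2 := h (am (A L)) (am (A (L + 1))) (am (A L)) (L / N) (1 / N) (by positivity) (by positivity)
        (fun k => am_abs (hA L) _) (fun j => by rw [hA1, mul_one_div])
      have h3 : ((L + 1 : ℕ) : ℝ) / N = (L : ℝ) / N + 1 / N := by push_cast; ring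
      simp only [h3]
      simpa using h2) L
  refine h1.trans (le_of_eq ?_)
  have h4 : K * (1 / (N : ℝ)) * L = K * (L / N) := by ring
  rw [h4]
  ring

/-- the empirical measure of a family of numbers in `[0, 1]` -/
noncomputable def emp (N : ℕ) (l : Fin N → Set.Icc (0 : ℝ) 1) : Measure (Set.Icc (0 : ℝ) 1) :=
  ∑ i, (N : ENNReal)⁻¹ • Measure.dirac (l i)

theorem emp_prob (N : ℕ) (hN : 1 ≤ N) (l : Fin N → Set.Icc (0 : ℝ) 1) : IsProbabilityMeasure (emp N l) := by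
  refine ⟨?_⟩
  unfold emp
  simp only [Measure.coe_finsetSum, Measure.coe_smul, Finset.sum_apply, Pi.smul_apply, measure_univ,
    smul_eq_mul, mul_one, Finset.sum_const, Finset.card_univ, Fintype.card_fin, nsmul_eq_mul]
  exact ENNReal.mul_inv_cancel (by simp; omega) (by simp)

theorem emp_int (N : ℕ) (l : Fin N → Set.Icc (0 : ℝ) 1) (f : Set.Icc (0 : ℝ) 1 → ℝ) (hf : Continuous f) :
    ∫ x, f x ∂(emp N l) = (∑ i, f (l i)) / N := by
  unfold emp
  rw [integral_finsetSum_measure, Finset.sum_div]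
  · refine Finset.sum_congr rfl fun i _ => ?_
    rw [integral_smul_measure, integral_dirac]
    simp [div_eq_inv_mul]
  · intro i _
    refine Integrable.smul_measure ?_ (by
      simp only [ne_eq, ENNReal.inv_eq_top, Nat.cast_eq_zero]
      have := i.2
      omega)
    exact integrable_dirac (by simp)

theorem exists_mu (τ : ℝ) (hτ : 0 ≤ τ) : ∃ μ : Measure ℝ, IsProbabilityMeasure μ ∧ μ (Set.Icc 0 1)ᶜ = 0 ∧
    ∀ p, ∫ x, x ^ (p + 1) ∂μ = mm τ (p + 1) := by
  have hch : ∀ N : ℕ, ∃ A : ℕ → Matrix (Fin (N + 1)) (Fin (N + 1)) ℂ, (∀ L, Good (A L)) ∧ A 0 = 1 ∧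
    ∀ L j, am (A (L + 1)) (j + 1) = am (A L) (j + 1) + DD (am (A L)) j / (N + 1 : ℕ) := fun N =>
      det_chain (by omega)
  choose A hA hA0 hA1 using hch
  obtain ⟨B, hB⟩ : ∃ B : ∀ N : ℕ, Matrix (Fin (N + 1)) (Fin (N + 1)) ℂ,
      B = fun N => A N ⌊τ * (N + 1 : ℕ)⌋₊ := ⟨_, rfl⟩
  have hBG : ∀ N, Good (B N) := by rw [hB]; exact fun N => hA N _
  have hl : ∀ N i, (hBG N).1.1.eigenvalues i ∈ Set.Icc (0 : ℝ) 1 := fun N i => eig_le (hBG N) (hBG N).1.1 i
  obtain ⟨l, hl'⟩ : ∃ l : ∀ N : ℕ, Fin (N + 1) → Set.Icc (0 : ℝ) 1, l = fun N i => ⟨_, hl N i⟩ := ⟨_, rfl⟩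
  obtain ⟨ν, hν⟩ : ∃ ν : ℕ → ProbabilityMeasure (Set.Icc (0 : ℝ) 1),
      ν = fun N => ⟨emp (N + 1) (l N), emp_prob (N + 1) (by omega) (l N)⟩ := ⟨_, rfl⟩
  obtain ⟨u, hu⟩ : ∃ u : Ultrafilter (ProbabilityMeasure (Set.Icc (0 : ℝ) 1)),
      u = (hyperfilter ℕ).map ν := ⟨_, rfl⟩
  have hlim := u.le_nhds_lim
  obtain ⟨κ, hκ⟩ : ∃ κ, κ = u.lim := ⟨_, rfl⟩
  have hT : Tendsto ν (hyperfilter ℕ) (𝓝 κ) := by
    rw [hκ]
    have : Tendsto ν (hyperfilter ℕ) u := by
      rw [hu]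
      exact le_of_eq rfl
    exact this.mono_right hlim
  have hmom : ∀ p, ∫ x : Set.Icc (0 : ℝ) 1, (x : ℝ) ^ (p + 1) ∂(κ : Measure (Set.Icc (0 : ℝ) 1)) =
      mm τ (p + 1) := by
    intro p
    have h1 := ProbabilityMeasure.tendsto_iff_forall_integral_tendsto.1 hT
      (BoundedContinuousFunction.mkOfCompact
        ⟨fun x : Set.Icc (0 : ℝ) 1 => (x : ℝ) ^ (p + 1), by fun_prop⟩)
    simp only [BoundedContinuousFunction.mkOfCompact_apply, ContinuousMap.coe_mk] at h1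
    refine tendsto_nhds_unique h1 ?_
    have h2 : ∀ N, ∫ x : Set.Icc (0 : ℝ) 1, (x : ℝ) ^ (p + 1) ∂(ν N : Measure (Set.Icc (0 : ℝ) 1)) =
        am (B N) (p + 1) := by
      intro N
      have h3 : (ν N : Measure (Set.Icc (0 : ℝ) 1)) = emp (N + 1) (l N) := by rw [hν]; rfl
      rw [h3, emp_int _ _ _ (by fun_prop)]
      unfold am
      rw [trace_pow (hBG N) (hBG N).1.1, Complex.ofReal_re, hl']
    simp only [h2]
    refine Tendsto.mono_left ?_ (Nat.hyperfilter_le_atTop)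
    obtain ⟨K, C, hK, hC, hb⟩ := det_bound (p + 1)
    obtain ⟨C1, hC1, hlip⟩ := mm_lip (p + 1)
    have h4 : ∀ N : ℕ, |am (B N) (p + 1) - mm τ (p + 1)| ≤
        (τ * Real.exp (K * τ) * C + C1) * (1 / ((N : ℝ) + 1)) := by
      intro N
      obtain ⟨L, hL⟩ : ∃ L, L = ⌊τ * (N + 1 : ℕ)⌋₊ := ⟨_, rfl⟩
      have h5 := hb (N + 1) (by omega) (A N) (hA N) (hA0 N) (hA1 N) L
      have hN0 : (0 : ℝ) < (N + 1 : ℕ) := by positivity
      have h6 : (L : ℝ) / (N + 1 : ℕ) ≤ τ := by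
        rw [div_le_iff₀ hN0, hL]
        exact Nat.floor_le (by positivity)
      have h7 : τ - 1 / (N + 1 : ℕ) ≤ (L : ℝ) / (N + 1 : ℕ) := by
        rw [le_div_iff₀ hN0, sub_mul, div_mul_cancel₀ _ hN0.ne', hL]
        have := Nat.lt_floor_add_one (τ * (N + 1 : ℕ))
        linarith
      have h8 : |am (A N L) (p + 1) - mm ((L : ℝ) / (N + 1 : ℕ)) (p + 1)| ≤
          τ * Real.exp (K * τ) * (C / (N + 1 : ℕ)) := by
        refine le_trans (Finset.single_le_sum (f := fun j => |am (A N L) (j + 1) -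
          mm ((L : ℝ) / (N + 1 : ℕ)) (j + 1)|) (fun i _ => abs_nonneg _) (mem_range.2 (Nat.lt_succ_self p))) ?_
        refine le_trans h5 ?_
        refine mul_le_mul_of_nonneg_right ?_ (by positivity)
        refine mul_le_mul h6 ?_ (Real.exp_pos _).le hτ
        exact Real.exp_le_exp.2 (mul_le_mul_of_nonneg_left h6 hK)
      have h9 := hlip p (Nat.lt_succ_self p) ((L : ℝ) / (N + 1 : ℕ)) τ (by positivity) hτ
      have h10 : |(L : ℝ) / (N + 1 : ℕ) - τ| ≤ 1 / (N + 1 : ℕ) := by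
        rw [abs_sub_comm, abs_of_nonneg (by linarith)]
        linarith
      have h11 : B N = A N L := by rw [hB, hL]
      rw [h11]
      have e1 : am (A N L) (p + 1) - mm τ (p + 1) = (am (A N L) (p + 1) -
        mm ((L : ℝ) / (N + 1 : ℕ)) (p + 1)) + (mm ((L : ℝ) / (N + 1 : ℕ)) (p + 1) - mm τ (p + 1)) := by ring
      rw [e1]
      refine (abs_add_le _ _).trans ((add_le_add h8 (h9.trans (mul_le_mul_of_nonneg_left h10 hC1))).trans ?_)
      refine le_of_eq ?_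
      push_cast
      ring
    have h12 : Tendsto (fun N : ℕ => (τ * Real.exp (K * τ) * C + C1) * (1 / ((N : ℝ) + 1))) atTop (𝓝 0) := by
      have := (tendsto_one_div_add_atTop_nhds_zero_nat (𝕜 := ℝ)).const_mul (τ * Real.exp (K * τ) * C + C1)
      rwa [mul_zero] at this
    exact tendsto_iff_norm_sub_tendsto_zero.2 (squeeze_zero (fun _ => norm_nonneg _) h4 h12)
  refine ⟨(κ : Measure (Set.Icc (0 : ℝ) 1)).map Subtype.val, ?_, ?_, fun p => ?_⟩
  · exact Measure.isProbabilityMeasure_map measurable_subtype_coe.aemeasurable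
  · rw [Measure.map_apply measurable_subtype_coe measurableSet_Icc.compl]
    have : (Subtype.val ⁻¹' (Set.Icc (0 : ℝ) 1)ᶜ : Set (Set.Icc (0 : ℝ) 1)) = ∅ := by
      ext x
      simp only [Set.mem_preimage, Set.mem_compl_iff, Set.mem_empty_iff_false, iff_false, not_not]
      exact x.2
    rw [this, measure_empty]
  · rw [integral_map measurable_subtype_coe.aemeasurable (by fun_prop)]
    exact hmom p

end Pool.Agent.Q257.PH
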