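import Pool.Agent.Q257.PH.Lim

/-! Convergence in probability of the empirical distributions. -/

set_option autoImplicit false

namespace Pool.Agent.Q257.PH

open Finset Matrix MeasureTheory ProbabilityTheory Filter Topology Polynomial
open scoped ComplexOrder

universe u

/-- an orthogonal projection of corank one -/
theorem proj_corank {N : ℕ} (hN : 2 ≤ N) (P : Matrix (Fin N) (Fin N) ℂ) (hP2 : P * P = P) (hP : Pᴴ = P)
    (hr : P.rank = N - 1) : ∃ e : Fin N → ℂ, star e ⬝ᵥ e = 1 ∧ 1 - P = vecMulVec e (star e) := by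
  have h1 := P.mulVecLin.finrank_range_add_finrank_ker
  rw [Module.finrank_fin_fun] at h1
  have h2 : Module.finrank ℂ P.mulVecLin.range = N - 1 := hr
  have h3 : Module.finrank ℂ P.mulVecLin.ker = 1 := by omega
  obtain ⟨w, hw0, hw⟩ := finrank_eq_one_iff'.1 h3
  have hwP : P *ᵥ (w : Fin N → ℂ) = 0 := by
    have := w.2
    rw [LinearMap.mem_ker, mulVecLin_apply] at this
    exact this
  have hw0' : (w : Fin N → ℂ) ≠ 0 := fun h => hw0 (Subtype.ext h)
  obtain ⟨c, hc⟩ : ∃ c : ℝ, c = ∑ i, Complex.normSq ((w : Fin N → ℂ) i) := ⟨_, rfl⟩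
  have hcc : star (w : Fin N → ℂ) ⬝ᵥ (w : Fin N → ℂ) = (c : ℂ) := by
    rw [hc]
    unfold dotProduct
    push_cast
    refine Finset.sum_congr rfl fun i _ => ?_
    rw [Pi.star_apply, mul_comm]
    exact Complex.mul_conj _
  have hc0 : 0 < c := by
    obtain ⟨i, hi⟩ := Function.ne_iff.1 hw0'
    rw [hc]
    exact Finset.sum_pos' (fun i _ => Complex.normSq_nonneg _) ⟨i, mem_univ i, Complex.normSq_pos.2 hi⟩
  obtain ⟨s, hs⟩ : ∃ s : ℝ, s = Real.sqrt (1 / c) := ⟨_, rfl⟩
  have hss : s * s = 1 / c := by rw [hs]; exact Real.mul_self_sqrt (by positivity)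
  have hs0 : 0 < s := by rw [hs]; exact Real.sqrt_pos.2 (by positivity)
  obtain ⟨e, he⟩ : ∃ e : Fin N → ℂ, e = (s : ℂ) • (w : Fin N → ℂ) := ⟨_, rfl⟩
  have hstar : star (s : ℂ) = s := Complex.conj_ofReal s
  have hee : star e ⬝ᵥ e = 1 := by
    rw [he, star_smul, smul_dotProduct, dotProduct_smul, hcc, hstar, smul_eq_mul, smul_eq_mul, ← mul_assoc]
    have : ((s : ℂ) * s) * c = ((s * s * c : ℝ) : ℂ) := by push_cast; ring
    rw [this, hss]
    have : 1 / c * c = 1 := by field_simp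
    rw [this, Complex.ofReal_one]
  have hPe : P *ᵥ e = 0 := by rw [he, mulVec_smul, hwP, smul_zero]
  refine ⟨e, hee, ?_⟩
  have key : ∀ x : Fin N → ℂ, (1 - P) *ᵥ x = (star e ⬝ᵥ x) • e := by
    intro x
    have h4 : P *ᵥ ((1 - P) *ᵥ x) = 0 := by
      rw [mulVec_mulVec, mul_sub, mul_one, hP2, sub_self, zero_mulVec]
    obtain ⟨a, ha⟩ := hw ⟨(1 - P) *ᵥ x, by rw [LinearMap.mem_ker, mulVecLin_apply]; exact h4⟩
    have ha' : (1 - P) *ᵥ x = a • (w : Fin N → ℂ) := by
      have := congrArg Subtype.val ha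
      exact this.symm
    have hs0' : (s : ℂ) ≠ 0 := by exact_mod_cast hs0.ne'
    have h5 : (1 - P) *ᵥ x = (a / s) • e := by
      rw [ha', he, smul_smul, div_mul_cancel₀ _ hs0']
    have h6 : star e ⬝ᵥ ((1 - P) *ᵥ x) = a / s := by
      rw [h5, dotProduct_smul, hee, smul_eq_mul, mul_one]
    have h7 : star e ⬝ᵥ ((1 - P) *ᵥ x) = star e ⬝ᵥ x := by
      rw [dotProduct_mulVec]
      congr 1
      have h8 : star e ᵥ* (1 - P) = star ((1 - P) *ᵥ e) := by
        rw [star_mulVec, (compl_proj hP2 hP).2]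
      rw [h8, sub_mulVec, one_mulVec, hPe, sub_zero]
    rw [h5, ← h7, h6]
  ext i j
  have h9 := congrFun (key (Pi.single j 1)) i
  rw [mulVec_single_one] at h9
  simp only [col_apply, Pi.smul_apply, smul_eq_mul, dotProduct_single, mul_one, Pi.star_apply] at h9
  rw [h9, vecMulVec_apply, Pi.star_apply]
  ring

theorem approx {N : ℕ} (hN : 1 ≤ N) (T : Fin N → ℝ) (hT : ∀ i, T i ∈ Set.Icc (0 : ℝ) 1) (ν : Measure ℝ)
    [IsProbabilityMeasure ν] (hν : ν (Set.Icc 0 1)ᶜ = 0) (f : ℝ → ℝ) (hf : ContinuousOn f (Set.Icc 0 1))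
    (q : ℝ[X]) (δ : ℝ) (hq : ∀ x ∈ Set.Icc (0 : ℝ) 1, |q.eval x - f x| < δ) :
    |(∑ i, f (T i)) / N - ∫ x, f x ∂ν| ≤ 2 * δ + ∑ p ∈ range q.natDegree, |q.coeff (p + 1)| *
      |(∑ i, T i ^ (p + 1)) / N - ∫ x, x ^ (p + 1) ∂ν| := by
  have hN0 : (0 : ℝ) < N := by positivity
  have hae : ∀ᵐ x ∂ν, x ∈ Set.Icc (0 : ℝ) 1 := by
    rw [ae_iff]
    exact hν
  have hres : ν.restrict (Set.Icc (0 : ℝ) 1) = ν := Measure.restrict_eq_self_of_ae_mem hae
  have hδ : 0 ≤ δ := by
    have := hq 0 (by simp)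
    linarith [abs_nonneg (q.eval 0 - f 0)]
  have hfm : AEStronglyMeasurable f ν := by
    rw [← hres]
    exact hf.aestronglyMeasurable measurableSet_Icc
  obtain ⟨Cf, hCf⟩ := isCompact_Icc.exists_bound_of_continuousOn hf
  have hfi : Integrable f ν := Integrable.of_bound hfm Cf (by
    filter_upwards [hae] with x hx
    exact hCf x hx)
  have hpi : ∀ p : ℕ, Integrable (fun x : ℝ => x ^ p) ν := fun p => Integrable.of_bound (by fun_prop) 1 (by
    filter_upwards [hae] with x hx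
    rw [Real.norm_eq_abs, abs_of_nonneg (pow_nonneg hx.1 p)]
    exact pow_le_one₀ hx.1 hx.2)
  have hqi : Integrable (fun x => q.eval x) ν := by
    simp only [eval_eq_sum_range]
    exact integrable_finsetSum _ fun p _ => (hpi p).const_mul _
  have h1 : |(∑ i, f (T i)) / N - (∑ i, q.eval (T i)) / N| ≤ δ := by
    rw [← sub_div, ← Finset.sum_sub_distrib, abs_div, Nat.abs_cast, div_le_iff₀ hN0]
    refine (Finset.abs_sum_le_sum_abs _ _).trans ?_
    calc ∑ i, |f (T i) - q.eval (T i)| ≤ ∑ _i : Fin N, δ := Finset.sum_le_sum fun i _ => by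
          rw [abs_sub_comm]; exact (hq _ (hT i)).le
      _ = δ * N := by simp [mul_comm]
  have h2 : |∫ x, q.eval x ∂ν - ∫ x, f x ∂ν| ≤ δ := by
    rw [← integral_sub hqi hfi]
    have h21 : ‖∫ x, (q.eval x - f x) ∂ν‖ ≤ δ * ν.real Set.univ := norm_integral_le_of_norm_le_const (by
      filter_upwards [hae] with x hx
      exact (hq x hx).le)
    rwa [probReal_univ, mul_one, Real.norm_eq_abs] at h21
  have h3 : (∑ i, q.eval (T i)) / N - ∫ x, q.eval x ∂ν = ∑ p ∈ range q.natDegree, q.coeff (p + 1) *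
      ((∑ i, T i ^ (p + 1)) / N - ∫ x, x ^ (p + 1) ∂ν) := by
    simp only [eval_eq_sum_range]
    rw [integral_finsetSum _ fun p _ => (hpi p).const_mul _, Finset.sum_comm, Finset.sum_div,
      ← Finset.sum_sub_distrib, Finset.sum_range_succ']
    simp only [pow_zero, integral_const_mul, mul_one, Finset.sum_const, Finset.card_univ, Fintype.card_fin,
      nsmul_eq_mul, integral_const, probReal_univ, smul_eq_mul]
    rw [mul_div_cancel_left₀ _ hN0.ne', one_mul, sub_self, add_zero]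
    refine Finset.sum_congr rfl fun p _ => ?_
    rw [← Finset.mul_sum]
    ring
  have h4 : (∑ i, f (T i)) / N - ∫ x, f x ∂ν = ((∑ i, f (T i)) / N - (∑ i, q.eval (T i)) / N) +
      (∫ x, q.eval x ∂ν - ∫ x, f x ∂ν) + ((∑ i, q.eval (T i)) / N - ∫ x, q.eval x ∂ν) := by ring
  rw [h4, h3]
  refine (abs_add_le _ _).trans (add_le_add ((abs_add_le _ _).trans (by linarith)) ?_)
  refine (Finset.abs_sum_le_sum_abs _ _).trans (Finset.sum_le_sum fun p _ => ?_)
  rw [abs_mul]

theorem final (τ : ℝ) (hτ : 0 < τ) (ν : Measure ℝ) [IsProbabilityMeasure ν] (hν : ν (Set.Icc 0 1)ᶜ = 0)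
    (hmom : ∀ p, 1 ≤ p → ∫ x, x ^ p ∂ν = mm τ p) (L : ℕ → ℕ)
    (hL : Tendsto (fun N => (L N : ℝ) / N) atTop (𝓝 τ)) (Ω : ℕ → Type u) [∀ N, MeasurableSpace (Ω N)]
    (μ : ∀ N, Measure (Ω N)) (S : ∀ N, ℕ → Ω N → Matrix (Fin N) (Fin N) ℂ)
    (hS : ∀ N, 2 ≤ N → HaarFamily (μ N) (S N)) (P : ∀ N, Matrix (Fin N) (Fin N) ℂ)
    (hP : ∀ N, 2 ≤ N → P N * P N = P N ∧ (P N)ᴴ = P N ∧ (P N).rank = N - 1)
    (f : ℝ → ℝ) (hf : ContinuousOn f (Set.Icc 0 1)) (ε : ℝ) (hε : 0 < ε) :
    Tendsto (fun N => μ N {ω | ε < |(∑ i, f ((isHermitian_conjTranspose_mul_self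
      (Bp (P N) (fun i => S N i ω) (L N))).eigenvalues i)) / N - ∫ x, f x ∂ν|}) atTop (𝓝 0) := by
  obtain ⟨q, hq⟩ := exists_polynomial_near_of_continuousOn 0 1 f hf (ε / 4) (by positivity)
  obtain ⟨P0, hP0⟩ : ∃ P0, P0 = q.natDegree := ⟨_, rfl⟩
  obtain ⟨M, hM⟩ : ∃ M, M = (∑ p ∈ range P0, |q.coeff (p + 1)|) + 1 := ⟨_, rfl⟩
  have hM0 : 0 < M := by
    rw [hM]
    have : 0 ≤ ∑ p ∈ range P0, |q.coeff (p + 1)| := Finset.sum_nonneg fun _ _ => abs_nonneg _
    linarith
  obtain ⟨K, C, hK, hC, hch⟩ := chain_bound.{u} P0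
  obtain ⟨C1, hC1, hlip⟩ := mm_lip P0
  have hbound : ∀ N, 2 ≤ N → μ N {ω | ε < |(∑ i, f ((isHermitian_conjTranspose_mul_self
      (Bp (P N) (fun i => S N i ω) (L N))).eigenvalues i)) / N - ∫ x, f x ∂ν|} ≤
      ENNReal.ofReal ((2 * M / ε) * (((L N : ℝ) / N) * Real.exp (K * ((L N : ℝ) / N)) *
        (K * (P0 / Real.sqrt N) + C / N) + P0 * (C1 * |(L N : ℝ) / N - τ|))) := by
    intro N hN
    have hN1 : 1 ≤ N := by omega
    have hN0 : (0 : ℝ) < N := by positivity
    obtain ⟨hP2, hPH, hrk⟩ := hP N hN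
    obtain ⟨e, he, he'⟩ := proj_corank hN (P N) hP2 hPH hrk
    have hH := hS N hN
    have := hH.prob
    have hE := hch N hN1 (Ω N) inferInstance (μ N) (S N) hH (P N) hP2 hPH e he he' (L N)
    obtain ⟨G, hG⟩ : ∃ G : Ω N → ℝ, G = fun ω => Zd P0 (am (Ap (P N) (fun i => S N i ω) (L N))) (L N / N) +
      P0 * (C1 * |(L N : ℝ) / N - τ|) := ⟨_, rfl⟩
    have hgood : ∀ ω, Good (Ap (P N) (fun i => S N i ω) (L N)) := fun ω =>
      Ap_good (P N) hP2 hPH _ (fun i => hH.unitary i ω) (L N)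
    have hZi : Integrable (fun ω => Zd P0 (am (Ap (P N) (fun i => S N i ω) (L N))) (L N / N)) (μ N) := by
      refine Integrable.of_bound ((Zd_cont P0 _).measurable.comp ((Ap_cont (P N) (L N)).measurable.comp
        (measurable_pi_iff.2 fun i => hH.meas i))).aestronglyMeasurable (P0 * 2)
        (Filter.Eventually.of_forall fun ω => ?_)
      rw [Real.norm_eq_abs]
      exact Zd_le P0 _ (by positivity) (hgood ω)
    have hGi : Integrable G (μ N) := by
      rw [hG]
      exact hZi.add (integrable_const _)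
    have hG0 : ∀ ω, 0 ≤ G ω := by
      intro ω
      rw [hG]
      have := Zd_nonneg P0 (am (Ap (P N) (fun i => S N i ω) (L N))) (L N / N)
      positivity
    have hpt : ∀ ω, |(∑ i, f ((isHermitian_conjTranspose_mul_self
      (Bp (P N) (fun i => S N i ω) (L N))).eigenvalues i)) / N - ∫ x, f x ∂ν| ≤ ε / 2 + M * G ω := by
      intro ω
      have hBG := Bp_good (P N) hP2 hPH (fun i => S N i ω) (fun i => hH.unitary i ω) (L N)
      have h1 := approx hN1 _ (fun i => eig_le hBG (isHermitian_conjTranspose_mul_self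
        (Bp (P N) (fun i => S N i ω) (L N))) i) ν hν f hf q (ε / 4) hq
      refine h1.trans ?_
      have h2 : ∀ p ∈ range q.natDegree, |q.coeff (p + 1)| * |(∑ i, (isHermitian_conjTranspose_mul_self
          (Bp (P N) (fun i => S N i ω) (L N))).eigenvalues i ^ (p + 1)) / N - ∫ x, x ^ (p + 1) ∂ν| ≤
          |q.coeff (p + 1)| * G ω := by
        intro p hp
        refine mul_le_mul_of_nonneg_left ?_ (abs_nonneg _)
        have h3 : (∑ i, (isHermitian_conjTranspose_mul_self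
          (Bp (P N) (fun i => S N i ω) (L N))).eigenvalues i ^ (p + 1)) / N =
          am (Ap (P N) (fun i => S N i ω) (L N)) (p + 1) := by
          unfold am
          rw [Ap_eq (P N) hPH, trace_swap, trace_pow hBG (isHermitian_conjTranspose_mul_self
            (Bp (P N) (fun i => S N i ω) (L N))), Complex.ofReal_re]
        rw [h3, hmom (p + 1) (by omega)]
        have hp' : p ∈ range P0 := by rw [hP0]; exact hp
        have h4 : |am (Ap (P N) (fun i => S N i ω) (L N)) (p + 1) - mm ((L N : ℝ) / N) (p + 1)| ≤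
            Zd P0 (am (Ap (P N) (fun i => S N i ω) (L N))) (L N / N) :=
          Finset.single_le_sum (f := fun j => |am (Ap (P N) (fun i => S N i ω) (L N)) (j + 1) -
            mm ((L N : ℝ) / N) (j + 1)|) (fun i _ => abs_nonneg _) hp'
        have h5 := hlip p (mem_range.1 hp') ((L N : ℝ) / N) τ (by positivity) hτ.le
        have h6 : (1 : ℝ) ≤ P0 := by
          have := mem_range.1 hp'
          exact_mod_cast (by omega : 1 ≤ P0)
        have h7 : C1 * |(L N : ℝ) / N - τ| ≤ P0 * (C1 * |(L N : ℝ) / N - τ|) :=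
          le_mul_of_one_le_left (by positivity) h6
        have e1 : am (Ap (P N) (fun i => S N i ω) (L N)) (p + 1) - mm τ (p + 1) =
          (am (Ap (P N) (fun i => S N i ω) (L N)) (p + 1) - mm ((L N : ℝ) / N) (p + 1)) +
          (mm ((L N : ℝ) / N) (p + 1) - mm τ (p + 1)) := by ring
        rw [e1, hG]
        exact (abs_add_le _ _).trans (by linarith)
      have h3 := Finset.sum_le_sum h2
      rw [← Finset.sum_mul] at h3
      have h4 : (∑ p ∈ range q.natDegree, |q.coeff (p + 1)|) * G ω ≤ M * G ω := by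
        refine mul_le_mul_of_nonneg_right ?_ (hG0 ω)
        rw [hM, hP0]
        linarith
      linarith
    have hsub : {ω | ε < |(∑ i, f ((isHermitian_conjTranspose_mul_self
      (Bp (P N) (fun i => S N i ω) (L N))).eigenvalues i)) / N - ∫ x, f x ∂ν|} ⊆
        {ω | ε / (2 * M) ≤ G ω} := by
      intro ω hω
      rw [Set.mem_ofPred_eq] at hω ⊢
      have := hpt ω
      rw [div_le_iff₀ (by positivity)]
      nlinarith
    refine (measure_mono hsub).trans ?_
    have hmk := mul_meas_ge_le_integral_of_nonneg (μ := μ N) (f := G)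
      (Filter.Eventually.of_forall hG0) hGi (ε / (2 * M))
    have hGE : ∫ ω, G ω ∂(μ N) ≤ ((L N : ℝ) / N) * Real.exp (K * ((L N : ℝ) / N)) *
        (K * (P0 / Real.sqrt N) + C / N) + P0 * (C1 * |(L N : ℝ) / N - τ|) := by
      rw [hG, integral_add hZi (integrable_const _)]
      simp only [integral_const, probReal_univ, smul_eq_mul, one_mul]
      linarith
    have h8 : (μ N).real {ω | ε / (2 * M) ≤ G ω} ≤ (2 * M / ε) * (((L N : ℝ) / N) *
        Real.exp (K * ((L N : ℝ) / N)) * (K * (P0 / Real.sqrt N) + C / N) +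
        P0 * (C1 * |(L N : ℝ) / N - τ|)) := by
      have h9 : ε / (2 * M) * (μ N).real {ω | ε / (2 * M) ≤ G ω} ≤ ((L N : ℝ) / N) *
        Real.exp (K * ((L N : ℝ) / N)) * (K * (P0 / Real.sqrt N) + C / N) +
        P0 * (C1 * |(L N : ℝ) / N - τ|) := hmk.trans hGE
      have h10 : (μ N).real {ω | ε / (2 * M) ≤ G ω} = (2 * M / ε) * (ε / (2 * M) *
        (μ N).real {ω | ε / (2 * M) ≤ G ω}) := by field_simp
      rw [h10]
      exact mul_le_mul_of_nonneg_left h9 (by positivity)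
    rw [← ENNReal.ofReal_toReal (measure_ne_top (μ N) {ω | ε / (2 * M) ≤ G ω})]
    exact ENNReal.ofReal_le_ofReal h8
  have hlim : Tendsto (fun N : ℕ => ENNReal.ofReal ((2 * M / ε) * (((L N : ℝ) / N) *
      Real.exp (K * ((L N : ℝ) / N)) * (K * (P0 / Real.sqrt N) + C / N) +
      P0 * (C1 * |(L N : ℝ) / N - τ|)))) atTop (𝓝 0) := by
    have t1 : Tendsto (fun N : ℕ => (P0 : ℝ) / Real.sqrt N) atTop (𝓝 0) :=
      tendsto_const_nhds.div_atTop (Real.tendsto_sqrt_atTop.comp tendsto_natCast_atTop_atTop)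
    have t2 : Tendsto (fun N : ℕ => C / (N : ℝ)) atTop (𝓝 0) :=
      tendsto_const_nhds.div_atTop tendsto_natCast_atTop_atTop
    have t3 : Tendsto (fun N : ℕ => |(L N : ℝ) / N - τ|) atTop (𝓝 0) := by
      have := (hL.sub_const τ).abs
      simpa using this
    have t4 : Tendsto (fun N : ℕ => Real.exp (K * ((L N : ℝ) / N))) atTop (𝓝 (Real.exp (K * τ))) :=
      (Real.continuous_exp.tendsto _).comp (hL.const_mul K)
    have t5 := ((((hL.mul t4).mul ((t1.const_mul K).add t2)).add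
      ((t3.const_mul C1).const_mul (P0 : ℝ))).const_mul (2 * M / ε))
    have e0 : 2 * M / ε * (τ * Real.exp (K * τ) * (K * 0 + 0) + (P0 : ℝ) * (C1 * 0)) = 0 := by ring
    rw [e0] at t5
    have := ENNReal.tendsto_ofReal t5
    rwa [ENNReal.ofReal_zero] at this
  refine tendsto_of_tendsto_of_tendsto_of_le_of_le' tendsto_const_nhds hlim
    (Filter.Eventually.of_forall fun _ => zero_le) ?_
  filter_upwards [Filter.eventually_ge_atTop 2] with N hN
  exact hbound N hN

end Pool.Agent.Q257.PH
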