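import Mathlib

/-! The second moments of the squared coordinates of a uniform unit vector. -/

set_option autoImplicit false

namespace Pool.Agent.Q257.PH

open Finset Matrix MeasureTheory

variable {N : ℕ}

/-- a unitarily invariant probability measure on the unit sphere of `ℂ ^ N` -/
structure Sph (ρ : Measure (Fin N → ℂ)) : Prop where
  prob : IsProbabilityMeasure ρ
  unit : ∀ᵐ v ∂ρ, ∑ i, Complex.normSq (v i) = 1
  inv : ∀ U : Matrix (Fin N) (Fin N) ℂ, U ∈ unitaryGroup (Fin N) ℂ → ρ.map (fun v => U *ᵥ v) = ρ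

theorem householder (a b : Fin N → ℂ) (r : ℝ) (hr : r ≠ 1) (ha : star a ⬝ᵥ a = 1) (hb : star b ⬝ᵥ b = 1)
    (hab : star a ⬝ᵥ b = r) :
    ∃ U : Matrix (Fin N) (Fin N) ℂ, U ∈ unitaryGroup (Fin N) ℂ ∧ Uᴴ = U ∧ U *ᵥ a = b := by
  have hba : star b ⬝ᵥ a = r := by
    have h1 : star b ⬝ᵥ a = star (star a ⬝ᵥ b) := by
      rw [← star_dotProduct]
    rw [h1, hab]
    exact Complex.conj_ofReal r
  obtain ⟨w, hw⟩ : ∃ w : Fin N → ℂ, w = a - b := ⟨_, rfl⟩
  have hr' : (1 : ℂ) - r ≠ 0 := by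
    rw [sub_ne_zero]
    intro h
    exact hr (by exact_mod_cast h.symm)
  have hww : star w ⬝ᵥ w = 2 * (1 - r) := by
    rw [hw, star_sub, sub_dotProduct, dotProduct_sub, dotProduct_sub, ha, hb, hab, hba]; ring
  have hwa : star w ⬝ᵥ a = 1 - r := by
    rw [hw, star_sub, sub_dotProduct, ha, hba]
  obtain ⟨U, hU⟩ : ∃ U : Matrix (Fin N) (Fin N) ℂ, U = 1 - ((1 : ℂ) - r)⁻¹ • vecMulVec w (star w) := ⟨_, rfl⟩
  have hUH : Uᴴ = U := by
    rw [hU, conjTranspose_sub, conjTranspose_one, conjTranspose_smul, conjTranspose_vecMulVec, star_star]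
    congr 2
    rw [star_inv₀, star_sub, star_one]
    congr 2
    exact Complex.conj_ofReal r
  have hUU : U * U = 1 := by
    have h1 : vecMulVec w (star w) * vecMulVec w (star w) = (2 * (1 - (r : ℂ))) • vecMulVec w (star w) := by
      rw [vecMulVec_mul_vecMulVec, hww]
      ext i j
      simp [vecMulVec_apply]
      ring
    rw [hU, mul_sub, sub_mul, sub_mul, mul_one, one_mul, mul_one, smul_mul_smul_comm, h1, smul_smul]
    have h2 : ((1 : ℂ) - r)⁻¹ * ((1 : ℂ) - r)⁻¹ * (2 * (1 - r)) = 2 * ((1 : ℂ) - r)⁻¹ := by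
      field_simp
    rw [h2, mul_smul, two_smul]
    abel
  refine ⟨U, ?_, hUH, ?_⟩
  · rw [mem_unitaryGroup_iff, star_eq_conjTranspose, hUH, hUU]
  · rw [hU, sub_mulVec, one_mulVec, smul_mulVec, vecMulVec_mulVec, hwa, hw]
    ext i
    simp only [Pi.sub_apply, Pi.smul_apply, smul_eq_mul, MulOpposite.smul_eq_mul_unop, MulOpposite.unop_op]
    field_simp
    ring

theorem cont_dot (a : Fin N → ℂ) : Continuous fun v : Fin N → ℂ => star a ⬝ᵥ v := by
  unfold dotProduct
  exact continuous_finsetSum _ fun i _ => continuous_const.mul (continuous_apply i)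

theorem law_eq {ρ : Measure (Fin N → ℂ)} (h : Sph ρ) (a b : Fin N → ℂ) (r : ℝ) (hr : r ≠ 1)
    (ha : star a ⬝ᵥ a = 1) (hb : star b ⬝ᵥ b = 1) (hab : star a ⬝ᵥ b = r) (φ : ℂ → ℝ) (hφ : Continuous φ) :
    ∫ v, φ (star b ⬝ᵥ v) ∂ρ = ∫ v, φ (star a ⬝ᵥ v) ∂ρ := by
  obtain ⟨U, hU, hUH, hUa⟩ := householder a b r hr ha hb hab
  have h1 : ∀ v, star b ⬝ᵥ v = star a ⬝ᵥ (U *ᵥ v) := by
    intro v
    rw [← hUa, star_mulVec, hUH, dotProduct_mulVec]
  simp only [h1]
  conv_rhs => rw [← h.inv U hU]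
  rw [integral_map]
  · exact (Continuous.matrix_mulVec continuous_const continuous_id).aemeasurable
  · exact (hφ.comp (cont_dot a)).aestronglyMeasurable

/-- the squared modulus of a coordinate -/
def Ac (i : Fin N) (v : Fin N → ℂ) : ℝ := Complex.normSq (v i)

theorem cont_Ac (i : Fin N) : Continuous (Ac i : (Fin N → ℂ) → ℝ) :=
  Complex.continuous_normSq.comp (continuous_apply i)

theorem Ac_nonneg (i : Fin N) (v : Fin N → ℂ) : 0 ≤ Ac i v := Complex.normSq_nonneg _

theorem Ac_le {ρ : Measure (Fin N → ℂ)} (h : Sph ρ) : ∀ᵐ v ∂ρ, ∀ i, Ac i v ≤ 1 := by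
  filter_upwards [h.unit] with v hv i
  rw [← hv]
  exact Finset.single_le_sum (f := fun i => Complex.normSq (v i)) (fun i _ => Complex.normSq_nonneg _)
    (mem_univ i)

theorem int_bd {ρ : Measure (Fin N → ℂ)} (h : Sph ρ) (f : (Fin N → ℂ) → ℝ) (hf : Continuous f) (C : ℝ)
    (hC : ∀ v, (∀ i, Ac i v ≤ 1) → |f v| ≤ C) : Integrable f ρ := by
  have := h.prob
  refine Integrable.of_bound hf.aestronglyMeasurable C ?_
  filter_upwards [Ac_le h] with v hv
  exact hC v hv

theorem int_A {ρ : Measure (Fin N → ℂ)} (h : Sph ρ) (i : Fin N) : Integrable (Ac i) ρ :=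
  int_bd h _ (cont_Ac i) 1 fun v hv => by rw [abs_of_nonneg (Ac_nonneg i v)]; exact hv i

theorem int_AA {ρ : Measure (Fin N → ℂ)} (h : Sph ρ) (i j : Fin N) : Integrable (fun v => Ac i v * Ac j v) ρ :=
  int_bd h _ ((cont_Ac i).mul (cont_Ac j)) 1 fun v hv => by
    rw [abs_of_nonneg (mul_nonneg (Ac_nonneg i v) (Ac_nonneg j v))]
    exact mul_le_one₀ (hv i) (Ac_nonneg j v) (hv j)

theorem star_single (i : Fin N) (v : Fin N → ℂ) : star (Pi.single i (1 : ℂ) : Fin N → ℂ) ⬝ᵥ v = v i := by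
  rw [← Pi.single_star, star_one, single_dotProduct, one_mul]

theorem first_eq {ρ : Measure (Fin N → ℂ)} (h : Sph ρ) (φ : ℂ → ℝ) (hφ : Continuous φ) (i j : Fin N) :
    ∫ v, φ (v i) ∂ρ = ∫ v, φ (v j) ∂ρ := by
  by_cases hij : i = j
  · rw [hij]
  have h1 := law_eq h (Pi.single j 1) (Pi.single i 1) 0 (by norm_num)
    (by rw [star_single, Pi.single_eq_same]) (by rw [star_single, Pi.single_eq_same])
    (by rw [star_single, Pi.single_eq_of_ne (Ne.symm hij)]; simp) φ hφ
  simpa only [star_single] using h1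

theorem mean_A {ρ : Measure (Fin N → ℂ)} (h : Sph ρ) (i : Fin N) : ∫ v, Ac i v ∂ρ = 1 / N := by
  have := h.prob
  have h1 : ∀ j, ∫ v, Ac j v ∂ρ = ∫ v, Ac i v ∂ρ := fun j =>
    first_eq h Complex.normSq Complex.continuous_normSq j i
  have h2 : ∑ j, ∫ v, Ac j v ∂ρ = 1 := by
    rw [← integral_finsetSum _ fun j _ => int_A h j]
    have h3 : (fun v => ∑ j, Ac j v) =ᵐ[ρ] fun _ => (1 : ℝ) := h.unit
    rw [integral_congr_ae h3]
    simp
  rw [Finset.sum_congr rfl fun j _ => h1 j, Finset.sum_const, Finset.card_univ, Fintype.card_fin,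
    nsmul_eq_mul] at h2
  have hN : (N : ℝ) ≠ 0 := by
    rintro h0
    rw [h0, zero_mul] at h2
    exact zero_ne_one h2
  field_simp
  linarith

theorem mixed_c {ρ : Measure (Fin N → ℂ)} (h : Sph ρ) (i j : Fin N) (hij : i ≠ j) (c : ℂ)
    (hc : Complex.normSq c = 1) :
    ∫ v, Complex.normSq (v i + c * v j) ^ 2 ∂ρ = 4 * ∫ v, Ac i v ^ 2 ∂ρ := by
  obtain ⟨s, hs⟩ : ∃ s : ℝ, s = Real.sqrt 2 / 2 := ⟨_, rfl⟩
  have hs2 : s * s = 1 / 2 := by
    rw [hs]
    have := Real.mul_self_sqrt (show (0 : ℝ) ≤ 2 by norm_num)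
    linarith
  have hs1 : s ≠ 1 := by
    intro h1
    rw [h1] at hs2
    norm_num at hs2
  obtain ⟨b, hb⟩ : ∃ b : Fin N → ℂ, b = Pi.single i (s : ℂ) + Pi.single j ((s : ℂ) * star c) := ⟨_, rfl⟩
  have hbv : ∀ v : Fin N → ℂ, star b ⬝ᵥ v = (s : ℂ) * (v i + c * v j) := by
    intro v
    rw [hb, star_add, add_dotProduct, ← Pi.single_star, ← Pi.single_star, single_dotProduct,
      single_dotProduct, star_mul, star_star]
    have : star (s : ℂ) = s := Complex.conj_ofReal s
    rw [this]; ring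
  have hcc : c * star c = 1 := by
    have := Complex.mul_conj c
    rw [hc] at this
    simpa using this
  have h1 := law_eq h (Pi.single i 1) b s hs1 (by rw [star_single, Pi.single_eq_same])
    (by
      rw [hbv, hb]
      simp only [Pi.add_apply, Pi.single_eq_same, Pi.single_eq_of_ne hij, Pi.single_eq_of_ne (Ne.symm hij),
        add_zero, zero_add]
      have : (s : ℂ) * (s + c * (s * star c)) = (s * s : ℝ) * (1 + c * star c) := by push_cast; ring
      rw [this, hcc, hs2]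
      push_cast
      norm_num)
    (by
      rw [star_single, hb]
      simp only [Pi.add_apply, Pi.single_eq_same, Pi.single_eq_of_ne hij, add_zero])
    (fun z => Complex.normSq z ^ 2) (Complex.continuous_normSq.pow 2)
  simp only [star_single, hbv, map_mul, Complex.normSq_ofReal, hs2] at h1
  have h2 : ∀ v : Fin N → ℂ, (1 / 2 * Complex.normSq (v i + c * v j)) ^ 2 =
      (1 / 4) * Complex.normSq (v i + c * v j) ^ 2 := fun v => by ring
  simp only [h2] at h1
  rw [integral_const_mul] at h1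
  unfold Ac
  linarith

theorem four_phases (a b : ℂ) : Complex.normSq (a + 1 * b) ^ 2 + Complex.normSq (a + (-1) * b) ^ 2 +
    Complex.normSq (a + Complex.I * b) ^ 2 + Complex.normSq (a + (-Complex.I) * b) ^ 2 =
    4 * Complex.normSq a ^ 2 + 4 * Complex.normSq b ^ 2 + 16 * (Complex.normSq a * Complex.normSq b) := by
  simp only [Complex.normSq_apply, Complex.add_re, Complex.add_im, Complex.mul_re, Complex.mul_im,
    Complex.neg_re, Complex.neg_im, Complex.one_re, Complex.one_im, Complex.I_re, Complex.I_im]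
  ring

theorem mixed {ρ : Measure (Fin N → ℂ)} (h : Sph ρ) (i j : Fin N) (hij : i ≠ j) :
    ∫ v, Ac i v ^ 2 ∂ρ = 2 * ∫ v, Ac i v * Ac j v ∂ρ := by
  have hint : ∀ c : ℂ, Complex.normSq c = 1 →
      Integrable (fun v : Fin N → ℂ => Complex.normSq (v i + c * v j) ^ 2) ρ := by
    intro c hc
    refine int_bd h _ ((Complex.continuous_normSq.comp
      ((continuous_apply i).add (continuous_const.mul (continuous_apply j)))).pow 2) 16 ?_
    intro v hv
    rw [abs_of_nonneg (sq_nonneg _)]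
    have h1 : ‖v i + c * v j‖ ≤ 2 := by
      refine (norm_add_le _ _).trans ?_
      rw [norm_mul]
      have e1 : ‖v i‖ ≤ 1 := by
        have := hv i
        unfold Ac at this
        rw [Complex.normSq_eq_norm_sq] at this
        nlinarith [norm_nonneg (v i)]
      have e2 : ‖v j‖ ≤ 1 := by
        have := hv j
        unfold Ac at this
        rw [Complex.normSq_eq_norm_sq] at this
        nlinarith [norm_nonneg (v j)]
      have e3 : ‖c‖ = 1 := by
        rw [Complex.normSq_eq_norm_sq] at hc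
        nlinarith [norm_nonneg c]
      rw [e3]; linarith
    rw [Complex.normSq_eq_norm_sq]
    have h2 : ‖v i + c * v j‖ ^ 2 ≤ 4 := by nlinarith [norm_nonneg (v i + c * v j)]
    nlinarith [sq_nonneg (‖v i + c * v j‖ ^ 2), sq_nonneg ‖v i + c * v j‖]
  have h1 := mixed_c h i j hij 1 (by simp)
  have h2 := mixed_c h i j hij (-1) (by simp)
  have h3 := mixed_c h i j hij Complex.I (by simp)
  have h4 := mixed_c h i j hij (-Complex.I) (by simp)
  have i1 := hint 1 (by simp)
  have i2 := hint (-1) (by simp)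
  have i3 := hint Complex.I (by simp)
  have i4 := hint (-Complex.I) (by simp)
  have h5 : ∫ v, (4 * Ac i v ^ 2 + 4 * Ac j v ^ 2 + 16 * (Ac i v * Ac j v)) ∂ρ =
      16 * ∫ v, Ac i v ^ 2 ∂ρ := by
    have h6 : ∀ v : Fin N → ℂ, 4 * Ac i v ^ 2 + 4 * Ac j v ^ 2 + 16 * (Ac i v * Ac j v) =
        Complex.normSq (v i + 1 * v j) ^ 2 + Complex.normSq (v i + (-1) * v j) ^ 2 +
        Complex.normSq (v i + Complex.I * v j) ^ 2 + Complex.normSq (v i + (-Complex.I) * v j) ^ 2 :=
      fun v => (four_phases (v i) (v j)).symm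
    simp only [h6]
    have i12 : Integrable (fun v : Fin N → ℂ => Complex.normSq (v i + 1 * v j) ^ 2 +
      Complex.normSq (v i + (-1) * v j) ^ 2) ρ := i1.add i2
    have i123 : Integrable (fun v : Fin N → ℂ => Complex.normSq (v i + 1 * v j) ^ 2 +
      Complex.normSq (v i + (-1) * v j) ^ 2 + Complex.normSq (v i + Complex.I * v j) ^ 2) ρ := i12.add i3
    rw [integral_add i123 i4, integral_add i12 i3, integral_add i1 i2, h1, h2, h3, h4]
    ring
  have j1 : Integrable (fun v => Ac i v ^ 2) ρ := by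
    have := int_AA h i i
    simpa only [sq] using this
  have j2 : Integrable (fun v => Ac j v ^ 2) ρ := by
    have := int_AA h j j
    simpa only [sq] using this
  have j3 := int_AA h i j
  have j12 : Integrable (fun v => 4 * Ac i v ^ 2 + 4 * Ac j v ^ 2) ρ := (j1.const_mul 4).add (j2.const_mul 4)
  rw [integral_add j12 (j3.const_mul 16),
    integral_add (j1.const_mul 4) (j2.const_mul 4), integral_const_mul, integral_const_mul,
    integral_const_mul] at h5
  have h7 : ∫ v, Ac j v ^ 2 ∂ρ = ∫ v, Ac i v ^ 2 ∂ρ :=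
    first_eq h (fun z => Complex.normSq z ^ 2) (Complex.continuous_normSq.pow 2) j i
  rw [h7] at h5
  linarith

/-- all second moments -/
theorem second {ρ : Measure (Fin N → ℂ)} (h : Sph ρ) (hN : 1 ≤ N) (i j : Fin N) :
    ∫ v, Ac i v * Ac j v ∂ρ = (if i = j then 2 else 1) / ((N : ℝ) * (N + 1)) := by
  have := h.prob
  have hq : ∀ i j : Fin N, i ≠ j → ∫ v, Ac i v * Ac j v ∂ρ = (∫ v, Ac i v ^ 2 ∂ρ) / 2 := by
    intro i j hij
    have := mixed h i j hij
    linarith
  have hq2 : ∀ i : Fin N, ∫ v, Ac i v ^ 2 ∂ρ = 2 / ((N : ℝ) * (N + 1)) := by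
    intro i
    have h1 : ∑ j, ∫ v, Ac i v * Ac j v ∂ρ = 1 / N := by
      rw [← integral_finsetSum _ fun j _ => int_AA h i j, ← mean_A h i]
      refine integral_congr_ae ?_
      filter_upwards [h.unit] with v hv
      rw [← Finset.mul_sum]
      unfold Ac
      rw [hv, mul_one]
    rw [← Finset.add_sum_erase _ _ (mem_univ i)] at h1
    have h2 : ∑ j ∈ univ.erase i, ∫ v, Ac i v * Ac j v ∂ρ = ((N : ℝ) - 1) * ((∫ v, Ac i v ^ 2 ∂ρ) / 2) := by
      rw [Finset.sum_congr rfl fun j hj => hq i j (Ne.symm (Finset.ne_of_mem_erase hj)), Finset.sum_const,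
        Finset.card_erase_of_mem (mem_univ i), Finset.card_univ, Fintype.card_fin, nsmul_eq_mul,
        Nat.cast_sub hN]
      push_cast
      ring
    rw [h2] at h1
    have h3 : ∫ v, Ac i v * Ac i v ∂ρ = ∫ v, Ac i v ^ 2 ∂ρ := by simp only [sq]
    rw [h3] at h1
    have hN0 : (N : ℝ) ≠ 0 := by positivity
    have hN1 : (N : ℝ) + 1 ≠ 0 := by positivity
    field_simp at h1 ⊢
    linarith
  by_cases hij : i = j
  · subst hij
    rw [if_pos rfl, ← hq2 i]
    simp only [sq]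
  · rw [if_neg hij, hq i j hij, hq2 i]
    ring

/-- **The variance of a quadratic form.** -/
theorem variance {ρ : Measure (Fin N → ℂ)} (h : Sph ρ) (hN : 1 ≤ N) (l : Fin N → ℝ) (hl : ∀ i, |l i| ≤ 1) :
    ∫ v, (∑ i, l i * Ac i v - (∑ i, l i) / N) ^ 2 ∂ρ ≤ 1 / N := by
  have := h.prob
  obtain ⟨Λ, hΛ⟩ : ∃ Λ : ℝ, Λ = ∑ i, l i := ⟨_, rfl⟩
  have hN0 : (0 : ℝ) < N := by positivity
  have e1 : ∀ v, (∑ i, l i * Ac i v - Λ / N) ^ 2 =
      ∑ i, ∑ j, l i * l j * (Ac i v * Ac j v) - ∑ i, (2 * (Λ / N) * l i) * Ac i v + (Λ / N) ^ 2 := by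
    intro v
    have h1 : (∑ i, l i * Ac i v) ^ 2 = ∑ i, ∑ j, l i * l j * (Ac i v * Ac j v) := by
      rw [sq, Finset.sum_mul_sum]
      refine Finset.sum_congr rfl fun i _ => Finset.sum_congr rfl fun j _ => by ring
    have h2 : ∑ i, (2 * (Λ / N) * l i) * Ac i v = 2 * (Λ / N) * ∑ i, l i * Ac i v := by
      rw [Finset.mul_sum]
      refine Finset.sum_congr rfl fun i _ => by ring
    rw [← h1, h2]; ring
  rw [← hΛ]
  simp only [e1]
  have i1 : Integrable (fun v => ∑ i, ∑ j, l i * l j * (Ac i v * Ac j v)) ρ :=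
    integrable_finsetSum _ fun i _ => integrable_finsetSum _ fun j _ => (int_AA h i j).const_mul _
  have i2 : Integrable (fun v => ∑ i, (2 * (Λ / N) * l i) * Ac i v) ρ :=
    integrable_finsetSum _ fun i _ => (int_A h i).const_mul _
  have i12 : Integrable (fun v => ∑ i, ∑ j, l i * l j * (Ac i v * Ac j v) -
    ∑ i, (2 * (Λ / N) * l i) * Ac i v) ρ := i1.sub i2
  rw [integral_add i12 (integrable_const _), integral_sub i1 i2, integral_finsetSum _ fun i _ =>
    integrable_finsetSum _ fun j _ => (int_AA h i j).const_mul _, integral_finsetSum _ fun i _ =>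
    (int_A h i).const_mul _]
  have e2 : ∀ i : Fin N, ∫ v, ∑ j, l i * l j * (Ac i v * Ac j v) ∂ρ =
      (l i * Λ + l i ^ 2) / ((N : ℝ) * (N + 1)) := by
    intro i
    rw [integral_finsetSum _ fun j _ => (int_AA h i j).const_mul _]
    have h3 : ∀ j : Fin N, ∫ v, l i * l j * (Ac i v * Ac j v) ∂ρ =
        (l i * l j + (if i = j then l i * l j else 0)) / ((N : ℝ) * (N + 1)) := by
      intro j
      rw [integral_const_mul, second h hN i j]
      split_ifs <;> ring
    rw [Finset.sum_congr rfl fun j _ => h3 j, ← Finset.sum_div, Finset.sum_add_distrib, ← Finset.mul_sum,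
      Finset.sum_ite_eq, if_pos (mem_univ i), hΛ]
    ring
  rw [Finset.sum_congr rfl fun i _ => e2 i, ← Finset.sum_div, Finset.sum_add_distrib, ← Finset.sum_mul, ← hΛ]
  have e3 : ∑ i : Fin N, ∫ v, 2 * (Λ / N) * l i * Ac i v ∂ρ = 2 * (Λ / N) ^ 2 := by
    have h3 : ∀ i : Fin N, ∫ v, 2 * (Λ / N) * l i * Ac i v ∂ρ = (2 * (Λ / N)) * l i / N := by
      intro i
      rw [integral_const_mul, mean_A h i]; ring
    rw [Finset.sum_congr rfl fun i _ => h3 i, ← Finset.sum_div, ← Finset.mul_sum, ← hΛ]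
    ring
  rw [e3]
  simp only [integral_const, probReal_univ, smul_eq_mul, one_mul]
  have e4 : ∑ i, l i ^ 2 ≤ N := by
    calc ∑ i, l i ^ 2 ≤ ∑ _i : Fin N, (1 : ℝ) := Finset.sum_le_sum fun i _ => by
          have := hl i
          rw [← sq_abs]
          nlinarith [abs_nonneg (l i)]
      _ = N := by simp
  have e5 : (Λ * Λ + ∑ i, l i ^ 2) / ((N : ℝ) * (N + 1)) - 2 * (Λ / N) ^ 2 + (Λ / N) ^ 2 =
      (∑ i, l i ^ 2) / ((N : ℝ) * (N + 1)) - Λ ^ 2 / (N ^ 2 * (N + 1)) := by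
    field_simp
    ring
  rw [e5]
  have e6 : 0 ≤ Λ ^ 2 / ((N : ℝ) ^ 2 * (N + 1)) := by positivity
  have e7 : (∑ i, l i ^ 2) / ((N : ℝ) * (N + 1)) ≤ 1 / N := by
    rw [div_le_div_iff₀ (by positivity) hN0]
    have : 0 ≤ ∑ i, l i ^ 2 := Finset.sum_nonneg fun i _ => sq_nonneg _
    nlinarith
  linarith

end Pool.Agent.Q257.PH
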