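import Pool.Agent.Q257.PH.Mat
import Pool.Agent.Q257.PH.Sph

/-! Matrices between `0` and `1`. -/

set_option autoImplicit false

namespace Pool.Agent.Q257.PH

open Finset Matrix
open scoped ComplexOrder

variable {N : ℕ}

/-- hermitian with spectrum in `[0, 1]` -/
def Good (A : Matrix (Fin N) (Fin N) ℂ) : Prop := A.PosSemidef ∧ (1 - A).PosSemidef

theorem good_one : Good (1 : Matrix (Fin N) (Fin N) ℂ) :=
  ⟨PosSemidef.one, by rw [sub_self]; exact PosSemidef.zero⟩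

theorem good_conj {A U : Matrix (Fin N) (Fin N) ℂ} (hA : Good A) (hU : U * Uᴴ = 1) : Good (U * A * Uᴴ) := by
  refine ⟨hA.1.mul_mul_conjTranspose_same U, ?_⟩
  have h1 : 1 - U * A * Uᴴ = U * (1 - A) * Uᴴ := by
    rw [mul_sub, sub_mul, mul_one, hU]
  rw [h1]
  exact hA.2.mul_mul_conjTranspose_same U

theorem psd_proj {Q : Matrix (Fin N) (Fin N) ℂ} (hQ : Q * Q = Q) (hQH : Qᴴ = Q) : Q.PosSemidef := by
  have := posSemidef_conjTranspose_mul_self Q
  rwa [hQH, hQ] at this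

theorem compl_proj {Q : Matrix (Fin N) (Fin N) ℂ} (hQ : Q * Q = Q) (hQH : Qᴴ = Q) :
    (1 - Q) * (1 - Q) = 1 - Q ∧ (1 - Q)ᴴ = 1 - Q := by
  constructor
  · have : (1 - Q) * (1 - Q) = 1 - Q - Q + Q * Q := by noncomm_ring
    rw [this, hQ]; abel
  · rw [conjTranspose_sub, conjTranspose_one, hQH]

theorem good_compress {A Q : Matrix (Fin N) (Fin N) ℂ} (hA : Good A) (hQ : Q * Q = Q) (hQH : Qᴴ = Q) :
    Good (Q * A * Q) := by
  constructor
  · have := hA.1.mul_mul_conjTranspose_same Q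
    rwa [hQH] at this
  · have h1 : 1 - Q * A * Q = (1 - Q) + Q * (1 - A) * Q := by
      rw [mul_sub, sub_mul, mul_one, hQ]; abel
    rw [h1]
    refine (psd_proj (compl_proj hQ hQH).1 (compl_proj hQ hQH).2).add ?_
    have := hA.2.mul_mul_conjTranspose_same Q
    rwa [hQH] at this

theorem eig_le {A : Matrix (Fin N) (Fin N) ℂ} (hA : Good A) (hH : A.IsHermitian) (i : Fin N) :
    0 ≤ hH.eigenvalues i ∧ hH.eigenvalues i ≤ 1 := by
  refine ⟨hA.1.eigenvalues_nonneg i, ?_⟩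
  obtain ⟨u, hu⟩ : ∃ u : Fin N → ℂ, u = ⇑(hH.eigenvectorBasis i) := ⟨_, rfl⟩
  have h1 := hA.2.re_dotProduct_nonneg u
  have h2 : A *ᵥ u = (hH.eigenvalues i : ℂ) • u := by
    rw [hu, hH.mulVec_eigenvectorBasis]
    ext j
    simp
  have h3 : star u ⬝ᵥ u = 1 := by
    have h4 := hH.eigenvectorBasis.orthonormal.1 i
    have h5 := inner_self_eq_norm_sq_to_K (𝕜 := ℂ) (hH.eigenvectorBasis i)
    rw [h4] at h5
    rw [EuclideanSpace.inner_eq_star_dotProduct, dotProduct_comm] at h5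
    rw [hu, h5]
    simp
  rw [sub_mulVec, one_mulVec, h2, dotProduct_sub, dotProduct_smul, h3] at h1
  simp at h1
  exact h1

/-- the spectral decomposition -/
theorem spectral {A : Matrix (Fin N) (Fin N) ℂ} (hA : Good A) (hH : A.IsHermitian) :
    ∃ U : Matrix (Fin N) (Fin N) ℂ, U ∈ unitaryGroup (Fin N) ℂ ∧
      (∀ k, A ^ k = U * diagonal (fun i => ((hH.eigenvalues i ^ k : ℝ) : ℂ)) * Uᴴ) := by
  refine ⟨hH.eigenvectorUnitary, hH.eigenvectorUnitary.2, fun k => ?_⟩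
  have h1 := hH.spectral_theorem
  rw [Unitary.conjStarAlgAut_apply] at h1
  obtain ⟨U, hU⟩ : ∃ U : Matrix (Fin N) (Fin N) ℂ, U = (hH.eigenvectorUnitary : Matrix (Fin N) (Fin N) ℂ) :=
    ⟨_, rfl⟩
  have hUU : Uᴴ * U = 1 := by
    rw [hU]
    exact Unitary.coe_star_mul_self _
  have hUU' : U * Uᴴ = 1 := by
    rw [hU]
    exact Unitary.coe_mul_star_self _
  rw [← hU]
  rw [← hU] at h1
  generalize hH.eigenvalues = l at h1
  induction k with
  | zero =>
    rw [pow_zero]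
    have : diagonal (fun i => ((l i ^ 0 : ℝ) : ℂ)) = (1 : Matrix (Fin N) (Fin N) ℂ) := by
      simp only [pow_zero, Complex.ofReal_one]
      exact diagonal_one
    rw [this, mul_one, hUU']
  | succ k ih =>
    rw [pow_succ, ih]
    have h2 : U * diagonal (fun i => ((l i ^ k : ℝ) : ℂ)) * Uᴴ * A =
        U * diagonal (fun i => ((l i ^ k : ℝ) : ℂ)) * (Uᴴ * U) *
        diagonal (RCLike.ofReal ∘ l) * Uᴴ := by
      conv_lhs => rw [h1]
      rw [star_eq_conjTranspose]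
      noncomm_ring
    rw [h2, hUU, mul_one, mul_assoc U, diagonal_mul_diagonal]
    congr 3
    funext i
    simp [pow_succ]

theorem trace_pow {A : Matrix (Fin N) (Fin N) ℂ} (hA : Good A) (hH : A.IsHermitian) (k : ℕ) :
    (A ^ k).trace = ((∑ i, hH.eigenvalues i ^ k : ℝ) : ℂ) := by
  obtain ⟨U, hU, h⟩ := spectral hA hH
  have hUU : Uᴴ * U = 1 := by
    rw [mem_unitaryGroup_iff', star_eq_conjTranspose] at hU
    exact hU
  rw [h, trace_mul_comm, ← mul_assoc, hUU, one_mul, trace_diagonal]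
  push_cast
  rfl

/-- the quadratic forms of the powers -/
theorem quad_pow {A : Matrix (Fin N) (Fin N) ℂ} (hA : Good A) (hH : A.IsHermitian) :
    ∃ U : Matrix (Fin N) (Fin N) ℂ, U ∈ unitaryGroup (Fin N) ℂ ∧ ∀ (v : Fin N → ℂ) (k : ℕ),
      star v ⬝ᵥ ((A ^ k) *ᵥ v) = ((∑ i, hH.eigenvalues i ^ k * Ac i (Uᴴ *ᵥ v) : ℝ) : ℂ) := by
  obtain ⟨U, hU, h⟩ := spectral hA hH
  refine ⟨U, hU, fun v k => ?_⟩
  rw [h, ← mulVec_mulVec, ← mulVec_mulVec, dotProduct_mulVec]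
  have h1 : star v ᵥ* U = star (Uᴴ *ᵥ v) := by
    rw [star_mulVec, conjTranspose_conjTranspose]
  rw [h1]
  unfold dotProduct Ac
  push_cast
  refine Finset.sum_congr rfl fun i _ => ?_
  rw [mulVec_diagonal, Pi.star_apply]
  have h2 : star ((Uᴴ *ᵥ v) i) * ((Uᴴ *ᵥ v) i) = (Complex.normSq ((Uᴴ *ᵥ v) i) : ℂ) := by
    rw [mul_comm]
    exact Complex.mul_conj _
  rw [← h2]
  ring

theorem quad_unit {U : Matrix (Fin N) (Fin N) ℂ} (hU : U ∈ unitaryGroup (Fin N) ℂ) (v : Fin N → ℂ) :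
    ∑ i, Ac i (Uᴴ *ᵥ v) = ∑ i, Ac i v := by
  have h1 : ∀ w : Fin N → ℂ, ((∑ i, Ac i w : ℝ) : ℂ) = star w ⬝ᵥ w := by
    intro w
    unfold dotProduct Ac
    push_cast
    refine Finset.sum_congr rfl fun i _ => ?_
    rw [Pi.star_apply, mul_comm]
    exact (Complex.mul_conj _).symm
  have h2 : ((∑ i, Ac i (Uᴴ *ᵥ v) : ℝ) : ℂ) = ((∑ i, Ac i v : ℝ) : ℂ) := by
    rw [h1, h1, star_mulVec, conjTranspose_conjTranspose, dotProduct_mulVec, vecMul_vecMul,
      ← star_eq_conjTranspose, mem_unitaryGroup_iff.1 hU, vecMul_one]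
  exact_mod_cast h2

/-- the moments of a matrix -/
noncomputable def am (A : Matrix (Fin N) (Fin N) ℂ) (k : ℕ) : ℝ := (A ^ k).trace.re / N

/-- the quadratic forms of a matrix -/
noncomputable def xm (A : Matrix (Fin N) (Fin N) ℂ) (v : Fin N → ℂ) (k : ℕ) : ℝ :=
  (star v ⬝ᵥ ((A ^ k) *ᵥ v)).re

theorem am_abs {A : Matrix (Fin N) (Fin N) ℂ} (hA : Good A) (k : ℕ) : |am A k| ≤ 1 := by
  unfold am
  rw [trace_pow hA hA.1.1, Complex.ofReal_re, abs_div, Nat.abs_cast]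
  refine div_le_one_of_le₀ ?_ (by positivity)
  refine (Finset.abs_sum_le_sum_abs _ _).trans ?_
  calc ∑ i, |hA.1.1.eigenvalues i ^ k| ≤ ∑ _i : Fin N, (1 : ℝ) := Finset.sum_le_sum fun i _ => by
        have := eig_le hA hA.1.1 i
        rw [abs_of_nonneg (pow_nonneg this.1 k)]
        exact pow_le_one₀ this.1 this.2
    _ = N := by simp

theorem xm_abs {A : Matrix (Fin N) (Fin N) ℂ} (hA : Good A) (v : Fin N → ℂ) (hv : ∑ i, Ac i v = 1) (k : ℕ) :
    |xm A v k| ≤ 1 := by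
  obtain ⟨U, hU, h⟩ := quad_pow hA hA.1.1
  unfold xm
  rw [h, Complex.ofReal_re]
  refine (Finset.abs_sum_le_sum_abs _ _).trans ?_
  calc ∑ i, |hA.1.1.eigenvalues i ^ k * Ac i (Uᴴ *ᵥ v)| ≤ ∑ i, Ac i (Uᴴ *ᵥ v) :=
        Finset.sum_le_sum fun i _ => by
          have := eig_le hA hA.1.1 i
          rw [abs_mul, abs_of_nonneg (pow_nonneg this.1 k), abs_of_nonneg (Ac_nonneg _ _)]
          exact mul_le_of_le_one_left (Ac_nonneg _ _) (pow_le_one₀ this.1 this.2)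
    _ = 1 := by rw [quad_unit hU, hv]

/-- the change of the moments -/
theorem am_step {A : Matrix (Fin N) (Fin N) ℂ} (hA : Good A) (v : Fin N → ℂ) (j : ℕ) :
    am (A * (1 - vecMulVec v (star v))) (j + 1) = am A (j + 1) + DD (xm A v) j / N := by
  unfold am
  rw [trace_step, Complex.add_re, add_div]
  congr 2
  obtain ⟨U, hU, h⟩ := quad_pow hA hA.1.1
  have h1 : (fun k => star v ⬝ᵥ ((A ^ k) *ᵥ v)) = fun k => Complex.ofRealHom (xm A v k) := by
    funext k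
    rw [h]
    unfold xm
    rw [h, Complex.ofReal_re]
    rfl
  rw [h1, DD_map]
  rfl

end Pool.Agent.Q257.PH
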