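import Pool.Agent.Q257.PH.Prob

/-! The limit. -/

set_option autoImplicit false

namespace Pool.Agent.Q257.PH

open Finset Matrix MeasureTheory ProbabilityTheory Filter Topology
open scoped ComplexOrder

universe u

theorem Zd_cont {N : ℕ} (P : ℕ) (t : ℝ) :
    Continuous fun A : Matrix (Fin N) (Fin N) ℂ => Zd P (am A) t := by
  unfold Zd
  exact continuous_finsetSum _ fun j _ => continuous_abs.comp ((am_cont _).sub continuous_const)

theorem Zd_le {N : ℕ} (P : ℕ) (t : ℝ) (ht : 0 ≤ t) {A : Matrix (Fin N) (Fin N) ℂ} (hA : Good A) :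
    |Zd P (am A) t| ≤ P * 2 := by
  rw [abs_of_nonneg (Zd_nonneg _ _ _)]
  unfold Zd
  calc ∑ j ∈ range P, |am A (j + 1) - mm t (j + 1)| ≤ ∑ _j ∈ range P, (2 : ℝ) :=
        Finset.sum_le_sum fun j _ => by
          refine (abs_sub _ _).trans ?_
          have h1 := am_abs hA (j + 1)
          have h2 := mm_abs t ht j
          linarith
    _ = P * 2 := by rw [Finset.sum_const, Finset.card_range, nsmul_eq_mul]

theorem int_three {Ω : Type u} {mΩ : MeasurableSpace Ω} {μ : Measure Ω} [IsProbabilityMeasure μ]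
    {f g y : Ω → ℝ} {a b c : ℝ} (hf : Integrable f μ) (hg : Integrable g μ) (hy : Integrable y μ)
    (h : ∀ ω, f ω ≤ a * g ω + b * y ω + c) : ∫ ω, f ω ∂μ ≤ a * ∫ ω, g ω ∂μ + b * ∫ ω, y ω ∂μ + c := by
  have i1 : Integrable (fun ω => a * g ω + b * y ω) μ := (hg.const_mul a).add (hy.const_mul b)
  have i2 : Integrable (fun ω => a * g ω + b * y ω + c) μ := i1.add (integrable_const c)
  refine (integral_mono hf i2 h).trans (le_of_eq ?_)
  rw [integral_add i1 (integrable_const c), integral_add (hg.const_mul a) (hy.const_mul b),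
    integral_const_mul, integral_const_mul]
  simp

theorem chain_bound (P0 : ℕ) : ∃ K C : ℝ, 0 ≤ K ∧ 0 ≤ C ∧ ∀ (N : ℕ), 1 ≤ N → ∀ (Ω : Type u)
    (_ : MeasurableSpace Ω) (μ : Measure Ω) (S : ℕ → Ω → Matrix (Fin N) (Fin N) ℂ), HaarFamily μ S →
    ∀ (P : Matrix (Fin N) (Fin N) ℂ), P * P = P → Pᴴ = P → ∀ e : Fin N → ℂ, star e ⬝ᵥ e = 1 →
      1 - P = vecMulVec e (star e) → ∀ L : ℕ,
      ∫ ω, Zd P0 (am (Ap P (fun i => S i ω) L)) (L / N) ∂μ ≤
        ((L : ℝ) / N) * Real.exp (K * ((L : ℝ) / N)) * (K * (P0 / Real.sqrt N) + C / N) := by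
  obtain ⟨K, C, hK, hC, hst⟩ := euler_step P0
  refine ⟨K, C, hK, hC, fun N hN Ω mΩ μ S h P hP2 hP e he he' L => ?_⟩
  have := h.prob
  have hN0 : (0 : ℝ) < N := by positivity
  have hG : ∀ L ω, Good (Ap P (fun i => S i ω) L) := fun L ω =>
    Ap_good P hP2 hP _ (fun i => h.unitary i ω) L
  have hm : ∀ L, Measurable fun ω => Ap P (fun i => S i ω) L := fun L =>
    (Ap_cont P L).measurable.comp (measurable_pi_iff.2 fun i => h.meas i)
  have hZi : ∀ L : ℕ, Integrable (fun ω => Zd P0 (am (Ap P (fun i => S i ω) L)) (L / N)) μ := by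
    intro L
    refine Integrable.of_bound ((Zd_cont P0 _).measurable.comp (hm L)).aestronglyMeasurable (P0 * 2)
      (Filter.Eventually.of_forall fun ω => ?_)
    rw [Real.norm_eq_abs]
    exact Zd_le P0 _ (by positivity) (hG L ω)
  have hmx : ∀ L k, Measurable fun ω => xm (Ap P (fun i => S i ω) L) ((S L ω)ᴴ *ᵥ e) k := by
    intro L k
    have hc : Continuous fun s : Matrix (Fin N) (Fin N) ℂ => sᴴ *ᵥ e :=
      continuous_id.matrix_conjTranspose.matrix_mulVec continuous_const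
    exact (xm_cont k).measurable.comp ((hm L).prodMk (hc.measurable.comp (h.meas L)))
  have hunit : ∀ L ω, ∑ i, Ac i ((S L ω)ᴴ *ᵥ e) = 1 := by
    intro L ω
    rw [quad_unit (h.unitary L ω) e]
    have h2 : ((∑ i, Ac i e : ℝ) : ℂ) = 1 := by
      rw [← he]
      unfold dotProduct Ac
      push_cast
      refine Finset.sum_congr rfl fun i _ => ?_
      rw [Pi.star_apply, mul_comm]
      exact (Complex.mul_conj _).symm
    exact_mod_cast h2
  have hYi : ∀ L k, Integrable (fun ω => |xm (Ap P (fun i => S i ω) L) ((S L ω)ᴴ *ᵥ e) k -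
      am (Ap P (fun i => S i ω) L) k|) μ := by
    intro L k
    refine Integrable.of_bound (((hmx L k).sub ((am_cont k).measurable.comp (hm L))).abs).aestronglyMeasurable 2
      (Filter.Eventually.of_forall fun ω => ?_)
    rw [Real.norm_eq_abs, abs_abs]
    refine (abs_sub _ _).trans ?_
    have h1 := am_abs (hG L ω) k
    have h2 := xm_abs (hG L ω) _ (hunit L ω) k
    linarith
  have hYb : ∀ L k, ∫ ω, |xm (Ap P (fun i => S i ω) L) ((S L ω)ᴴ *ᵥ e) k -
      am (Ap P (fun i => S i ω) L) k| ∂μ ≤ 1 / Real.sqrt N := by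
    intro L k
    have h1 := dev_step h hN P hP2 hP e he L k
    rw [← ofReal_integral_eq_lintegral_ofReal (hYi L k) (Filter.Eventually.of_forall fun _ => abs_nonneg _)]
      at h1
    exact (ENNReal.ofReal_le_ofReal_iff (by positivity)).1 h1
  have h0 : ∫ ω, Zd P0 (am (Ap P (fun i => S i ω) 0)) ((0 : ℕ) / N) ∂μ ≤ 0 := by
    refine le_of_eq (integral_eq_zero_of_ae (Filter.Eventually.of_forall fun ω => ?_))
    simp only [Pi.zero_apply]
    unfold Zd
    refine Finset.sum_eq_zero fun j _ => ?_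
    rw [Ap, am_one hN, Nat.cast_zero, zero_div, mm_zero]
    simp
  have h1 := gronwall (fun L => ∫ ω, Zd P0 (am (Ap P (fun i => S i ω) L)) (L / N) ∂μ) (K * (1 / N))
    (K * (1 / N) * (P0 / Real.sqrt N) + C * (1 / N) ^ 2) (by positivity)
    (by positivity) h0 (fun L => by
      have h2 : ∀ ω, Zd P0 (am (Ap P (fun i => S i ω) (L + 1))) ((L + 1 : ℕ) / N) ≤
          ((1 + K * (1 / N)) * Zd P0 (am (Ap P (fun i => S i ω) L)) (L / N) + K * (1 / N) *
          (∑ k ∈ range P0, |xm (Ap P (fun i => S i ω) L) ((S L ω)ᴴ *ᵥ e) (k + 1) -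
            am (Ap P (fun i => S i ω) L) (k + 1)|)) + C * (1 / N) ^ 2 := by
        intro ω
        have h3 : ((L + 1 : ℕ) : ℝ) / N = (L : ℝ) / N + 1 / N := by push_cast; ring
        rw [h3]
        refine hst _ _ _ _ _ (by positivity) (by positivity)
          (fun k => xm_abs (hG L ω) _ (hunit L ω) _) (fun j => ?_)
        rw [Ap_step P hP2 hP e he' (fun i => S i ω) (fun i => h.unitary i ω) L j, mul_one_div]
      refine (int_three (hZi (L + 1)) (hZi L) (integrable_finsetSum _ fun k _ => hYi L (k + 1)) h2).trans ?_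
      rw [integral_finsetSum _ fun k _ => hYi L (k + 1)]
      have h4 : ∑ k ∈ range P0, ∫ ω, |xm (Ap P (fun i => S i ω) L) ((S L ω)ᴴ *ᵥ e) (k + 1) -
            am (Ap P (fun i => S i ω) L) (k + 1)| ∂μ ≤ P0 / Real.sqrt N := by
        calc _ ≤ ∑ _k ∈ range P0, 1 / Real.sqrt N := Finset.sum_le_sum fun k _ => hYb L (k + 1)
          _ = P0 / Real.sqrt N := by rw [Finset.sum_const, Finset.card_range, nsmul_eq_mul, mul_one_div]
      have h5 : K * (1 / (N : ℝ)) * ∑ k ∈ range P0, ∫ ω, |xm (Ap P (fun i => S i ω) L) ((S L ω)ᴴ *ᵥ e) (k + 1) -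
            am (Ap P (fun i => S i ω) L) (k + 1)| ∂μ ≤ K * (1 / (N : ℝ)) * (P0 / Real.sqrt N) :=
        mul_le_mul_of_nonneg_left h4 (by positivity)
      linarith) L
  refine h1.trans (le_of_eq ?_)
  have h4 : K * (1 / (N : ℝ)) * L = K * (L / N) := by ring
  rw [h4]
  ring

end Pool.Agent.Q257.PH
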