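import Pool.Agent.Q257.PH.Mom

/-! Traces of the powers of a compressed matrix. -/

set_option autoImplicit false

namespace Pool.Agent.Q257.PH

open Finset Matrix

theorem sum_tri {R : Type} [CommRing R] (m : ℕ) (F : ℕ → R) :
    ∑ i ∈ range (m + 1), ∑ l ∈ range i, F l = ∑ l ∈ range m, ((m : R) - l) * F l := by
  induction m with
  | zero => simp
  | succ m ih =>
    rw [Finset.sum_range_succ, ih, Finset.sum_range_succ, Finset.sum_range_succ, ← add_assoc,
      ← Finset.sum_add_distrib]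
    congr 1
    · refine Finset.sum_congr rfl fun l _ => ?_
      push_cast; ring
    · push_cast; ring

variable {n : Type} [Fintype n] [DecidableEq n]

theorem telescope (A Y : Matrix n n ℂ) (p : ℕ) :
    Y ^ p - A ^ p = ∑ i ∈ range p, Y ^ i * (Y - A) * A ^ (p - 1 - i) := by
  induction p with
  | zero => simp
  | succ p ih =>
    rw [Finset.sum_range_succ]
    have h1 : ∑ i ∈ range p, Y ^ i * (Y - A) * A ^ (p + 1 - 1 - i) = (Y ^ p - A ^ p) * A := by
      rw [ih, Finset.sum_mul]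
      refine Finset.sum_congr rfl fun i hi => ?_
      rw [mem_range] at hi
      rw [mul_assoc _ _ A, ← pow_succ]
      congr 2
      omega
    rw [h1]
    simp only [Nat.add_sub_cancel, Nat.sub_self, pow_zero, mul_one, pow_succ]
    noncomm_ring

/-- the vectors `Y ^ j A v` -/
theorem u_formula (A : Matrix n n ℂ) (v : n → ℂ) (j : ℕ) :
    let Y := A - vecMulVec (A *ᵥ v) (star v)
    let x : ℕ → ℂ := fun k => star v ⬝ᵥ ((A ^ k) *ᵥ v)
    (Y ^ j) *ᵥ (A *ᵥ v) = (A ^ (j + 1)) *ᵥ v - ∑ i ∈ range j, gq x i • ((A ^ (j - i)) *ᵥ v) := by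
  intro Y x
  induction j with
  | zero => simp
  | succ j ih =>
    have h1 : star v ⬝ᵥ ((Y ^ j) *ᵥ (A *ᵥ v)) = gq x j := by
      rw [ih, dotProduct_sub, gq_eq, dotProduct_sum]
      simp only [dotProduct_smul, smul_eq_mul]
      rfl
    have h2 : Y *ᵥ ((Y ^ j) *ᵥ (A *ᵥ v)) = A *ᵥ ((Y ^ j) *ᵥ (A *ᵥ v)) - gq x j • (A *ᵥ v) := by
      conv_lhs => rw [show Y = A - vecMulVec (A *ᵥ v) (star v) from rfl]
      rw [sub_mulVec]
      congr 1
      rw [vecMulVec_mulVec, h1]
      ext i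
      simp [mul_comm]
    rw [pow_succ', ← mulVec_mulVec, h2, ih, mulVec_sub, mulVec_mulVec, ← pow_succ', Finset.sum_range_succ,
      sub_sub]
    congr 2
    · rw [mulVec_sum]
      refine Finset.sum_congr rfl fun i hi => ?_
      rw [mem_range] at hi
      rw [mulVec_smul, mulVec_mulVec, ← pow_succ', show j + 1 - i = j - i + 1 by omega]
    · rw [show j + 1 - j = 1 by omega, pow_one]

/-- **The change of the traces.** -/
theorem trace_step (A : Matrix n n ℂ) (v : n → ℂ) (j : ℕ) :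
    ((A * (1 - vecMulVec v (star v))) ^ (j + 1)).trace =
      (A ^ (j + 1)).trace + DD (fun k => star v ⬝ᵥ ((A ^ k) *ᵥ v)) j := by
  have hY : A * (1 - vecMulVec v (star v)) = A - vecMulVec (A *ᵥ v) (star v) := by
    rw [mul_sub, mul_one, mul_vecMulVec]
  rw [hY, ← sub_eq_iff_eq_add', ← trace_sub, telescope, trace_sum]
  have h1 : ∀ i ∈ range (j + 1), ((A - vecMulVec (A *ᵥ v) (star v)) ^ i *
      (A - vecMulVec (A *ᵥ v) (star v) - A) * A ^ (j + 1 - 1 - i)).trace =
      -((star v ⬝ᵥ ((A ^ (j + 1)) *ᵥ v)) - ∑ l ∈ range i, gq (fun k => star v ⬝ᵥ ((A ^ k) *ᵥ v)) l *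
        (star v ⬝ᵥ ((A ^ (j - l)) *ᵥ v))) := by
    intro i hi
    rw [mem_range] at hi
    rw [sub_sub_cancel_left, mul_neg, neg_mul, trace_neg, mul_vecMulVec, vecMulVec_mul, trace_vecMulVec,
      u_formula A v i, dotProduct_comm, ← dotProduct_mulVec, Nat.add_sub_cancel, mulVec_sub, dotProduct_sub,
      mulVec_mulVec, ← pow_add]
    congr 2
    · rw [show j - i + (i + 1) = j + 1 by omega]
    · rw [mulVec_sum, dotProduct_sum]
      refine Finset.sum_congr rfl fun l hl => ?_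
      rw [mem_range] at hl
      rw [mulVec_smul, dotProduct_smul, smul_eq_mul, mulVec_mulVec, ← pow_add,
        show j - i + (i - l) = j - l by omega]
  rw [Finset.sum_congr rfl h1, Finset.sum_neg_distrib, Finset.sum_sub_distrib, sum_tri]
  unfold DD
  simp only [Finset.sum_const, Finset.card_range, nsmul_eq_mul]
  have h2 : ∀ l, ((j : ℂ) - l) * gq (fun k => star v ⬝ᵥ ((A ^ k) *ᵥ v)) l *
      (star v ⬝ᵥ ((A ^ (j - l)) *ᵥ v)) = ((j : ℂ) - l) * (gq (fun k => star v ⬝ᵥ ((A ^ k) *ᵥ v)) l *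
      (star v ⬝ᵥ ((A ^ (j - l)) *ᵥ v))) := fun l => mul_assoc _ _ _
  simp only [h2]
  push_cast
  ring

/-- compressions have the same traces of powers -/
theorem trace_compress (A Q : Matrix n n ℂ) (hQ : Q * Q = Q) (p : ℕ) :
    ((Q * A * Q) ^ (p + 1)).trace = ((A * Q) ^ (p + 1)).trace := by
  have h1 : ∀ p : ℕ, (Q * A * Q) ^ (p + 1) = Q * (A * Q) ^ (p + 1) := by
    intro p
    induction p with
    | zero => simp [mul_assoc]
    | succ p ih =>
      rw [pow_succ, ih, pow_succ (A * Q) (p + 1), pow_succ (A * Q) p]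
      have : Q * (A * Q) ^ p * (A * Q) * (Q * A * Q) = Q * (A * Q) ^ p * (A * (Q * Q)) * (A * Q) := by
        noncomm_ring
      rw [show Q * ((A * Q) ^ p * (A * Q)) * (Q * A * Q) = Q * (A * Q) ^ p * (A * Q) * (Q * A * Q) by
        noncomm_ring, this, hQ]
      noncomm_ring
  rw [h1, trace_mul_comm, pow_succ]
  rw [show (A * Q) ^ p * (A * Q) * Q = (A * Q) ^ p * (A * (Q * Q)) by noncomm_ring, hQ]

end Pool.Agent.Q257.PH
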