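import Pool.Agent.Q257.PH.Abel

/-! The differential equation of the moments. -/

set_option autoImplicit false

namespace Pool.Agent.Q257.PH

open Finset

/-- the sequence `g` of `x`: `g j = x (j + 1) - ∑_{i < j} g i x (j - i)` -/
def gq {R : Type} [CommRing R] (x : ℕ → R) (j : ℕ) : R :=
  x (j + 1) - ∑ i : Fin j, gq x i.1 * x (j - i.1)
termination_by j
decreasing_by exact i.2

theorem gq_eq {R : Type} [CommRing R] (x : ℕ → R) (j : ℕ) :
    gq x j = x (j + 1) - ∑ i ∈ range j, gq x i * x (j - i) := by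
  rw [gq, Finset.sum_range]

/-- `D x j = - (p) [z^p] log (1 + ∑ x k z^k)`, `p = j + 1` -/
def DD {R : Type} [CommRing R] (x : ℕ → R) (j : ℕ) : R :=
  -((j : R) + 1) * x (j + 1) + ∑ i ∈ range j, ((j : R) - i) * gq x i * x (j - i)

theorem gq_map {R S : Type} [CommRing R] [CommRing S] (φ : R →+* S) (x : ℕ → R) (j : ℕ) :
    gq (fun k => φ (x k)) j = φ (gq x j) := by
  induction j using Nat.strong_induction_on with
  | _ j ih =>
    rw [gq_eq, gq_eq, map_sub, map_sum]
    congr 1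
    refine Finset.sum_congr rfl fun i hi => ?_
    rw [ih i (mem_range.1 hi), map_mul]

theorem DD_map {R S : Type} [CommRing R] [CommRing S] (φ : R →+* S) (x : ℕ → R) (j : ℕ) :
    DD (fun k => φ (x k)) j = φ (DD x j) := by
  unfold DD
  simp only [gq_map, map_add, map_mul, map_neg, map_sum, map_sub, map_natCast, map_one]

/-- the moments -/
noncomputable def mm (t : ℝ) (p : ℕ) : ℝ := Real.exp (-((p : ℝ) * t)) * bc t p

theorem mm_zero (j : ℕ) : mm 0 (j + 1) = 1 := by
  unfold mm bc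
  rw [Finset.sum_range_succ']
  simp

theorem bc_nonneg (t : ℝ) (ht : 0 ≤ t) (p : ℕ) : 0 ≤ bc t p := by
  unfold bc
  refine Finset.sum_nonneg fun k hk => ?_
  rw [mem_range] at hk
  have h1 : (k : ℝ) / p ≤ 1 := by
    rw [div_le_one (by have : 0 < p := by omega
                       positivity)]
    exact_mod_cast hk.le
  have h2 : 0 ≤ 1 - (k : ℝ) / p := by linarith
  positivity

theorem bc_le (t : ℝ) (ht : 0 ≤ t) (p : ℕ) : bc t p ≤ Real.exp ((p : ℝ) * t) := by
  refine le_trans ?_ (Real.sum_le_exp_of_nonneg (by positivity) p)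
  unfold bc
  refine Finset.sum_le_sum fun k hk => ?_
  have h1 : 0 ≤ (k : ℝ) / p := by positivity
  rw [mul_div_assoc]
  have h2 : 0 ≤ ((p : ℝ) * t) ^ k / (k.factorial : ℝ) := by positivity
  nlinarith

theorem mm_nonneg (t : ℝ) (ht : 0 ≤ t) (p : ℕ) : 0 ≤ mm t p :=
  mul_nonneg (Real.exp_pos _).le (bc_nonneg t ht p)

theorem mm_le_one (t : ℝ) (ht : 0 ≤ t) (p : ℕ) : mm t p ≤ 1 := by
  unfold mm
  calc Real.exp (-((p : ℝ) * t)) * bc t p ≤ Real.exp (-((p : ℝ) * t)) * Real.exp ((p : ℝ) * t) :=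
        mul_le_mul_of_nonneg_left (bc_le t ht p) (Real.exp_pos _).le
    _ = 1 := by rw [← Real.exp_add]; simp

theorem gq_mm (t : ℝ) (j : ℕ) : gq (mm t) j = ac t j * Real.exp (-(((j : ℝ) + 1) * t)) := by
  induction j using Nat.strong_induction_on with
  | _ j ih =>
    rw [gq_eq]
    have h1 : ∑ i ∈ range j, gq (mm t) i * mm t (j - i) =
        (∑ i ∈ range j, ac t i * bc t (j - i)) * Real.exp (-(((j : ℝ) + 1) * t)) := by
      rw [Finset.sum_mul]
      refine Finset.sum_congr rfl fun i hi => ?_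
      rw [ih i (mem_range.1 hi)]
      unfold mm
      have h2 : Real.exp (-(((j : ℝ) + 1) * t)) = Real.exp (-(((i : ℝ) + 1) * t)) *
          Real.exp (-(((j - i : ℕ) : ℝ) * t)) := by
        rw [← Real.exp_add]
        congr 1
        rw [Nat.cast_sub (mem_range.1 hi).le]
        ring
      rw [h2]; ring
    rw [h1]
    unfold mm
    rw [bc_rec]
    push_cast
    ring

theorem deriv_mm (t : ℝ) (j : ℕ) : HasDerivAt (fun t => mm t (j + 1)) (DD (mm t) j) t := by
  have h1 := deriv_bc t j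
  have h2 : HasDerivAt (fun t : ℝ => Real.exp (-(((j + 1 : ℕ) : ℝ) * t)))
      (Real.exp (-(((j + 1 : ℕ) : ℝ) * t)) * (-((j + 1 : ℕ) : ℝ))) t := by
    have h3 := (((hasDerivAt_id t).const_mul ((j + 1 : ℕ) : ℝ)).neg).exp
    simp only [id, mul_one] at h3
    exact h3
  have h4 : HasDerivAt (fun t => mm t (j + 1)) _ t := h2.mul h1
  refine h4.congr_deriv ?_
  unfold DD
  have h5 : ∑ i ∈ range j, ((j : ℝ) - i) * gq (mm t) i * mm t (j - i) =
      Real.exp (-(((j + 1 : ℕ) : ℝ) * t)) * ∑ i ∈ range j, ((j : ℝ) - i) * ac t i * bc t (j - i) := by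
    rw [Finset.mul_sum]
    refine Finset.sum_congr rfl fun i hi => ?_
    rw [gq_mm]
    unfold mm
    have h2 : Real.exp (-(((j + 1 : ℕ) : ℝ) * t)) = Real.exp (-(((i : ℝ) + 1) * t)) *
        Real.exp (-(((j - i : ℕ) : ℝ) * t)) := by
      rw [← Real.exp_add]
      congr 1
      rw [Nat.cast_sub (mem_range.1 hi).le]
      push_cast
      ring
    rw [h2]; ring
  rw [h5, show mm t (j + 1) = Real.exp (-(((j + 1 : ℕ) : ℝ) * t)) * bc t (j + 1) from rfl]
  push_cast
  ring

/-- bounds for `gq` -/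
theorem gq_lip (j : ℕ) : ∃ C : ℝ, 0 ≤ C ∧ ∀ x y : ℕ → ℝ, (∀ k, |x (k + 1)| ≤ 1) → (∀ k, |y (k + 1)| ≤ 1) →
    |gq x j| ≤ C ∧ ∀ δ : ℝ, (∀ k, k ≤ j → |x (k + 1) - y (k + 1)| ≤ δ) → |gq x j - gq y j| ≤ C * δ := by
  induction j using Nat.strong_induction_on with
  | _ j ih =>
    choose! C hC0 hC using ih
    refine ⟨1 + ∑ i ∈ range j, 2 * C i, add_nonneg zero_le_one (Finset.sum_nonneg fun i hi =>
      mul_nonneg two_pos.le (hC0 i (mem_range.1 hi))), fun x y hx hy => ⟨?_, fun δ hδ => ?_⟩⟩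
    · rw [gq_eq]
      refine (abs_sub _ _).trans (add_le_add (hx j) ?_)
      refine (Finset.abs_sum_le_sum_abs _ _).trans (Finset.sum_le_sum fun i hi => ?_)
      rw [mem_range] at hi
      rw [abs_mul]
      have h1 := (hC i hi x y hx hy).1
      have h2 : |x (j - i)| ≤ 1 := by
        obtain ⟨r, hr⟩ : ∃ r, j - i = r + 1 := ⟨j - i - 1, by omega⟩
        rw [hr]; exact hx r
      have h3 := hC0 i hi
      nlinarith [abs_nonneg (gq x i), abs_nonneg (x (j - i))]
    · have hδ0 : 0 ≤ δ := (abs_nonneg _).trans (hδ 0 (Nat.zero_le _))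
      rw [gq_eq x, gq_eq y]
      have e1 : x (j + 1) - ∑ i ∈ range j, gq x i * x (j - i) - (y (j + 1) - ∑ i ∈ range j, gq y i * y (j - i))
          = (x (j + 1) - y (j + 1)) - ∑ i ∈ range j, (gq x i * x (j - i) - gq y i * y (j - i)) := by
        rw [Finset.sum_sub_distrib]; ring
      rw [e1, add_mul, one_mul]
      refine (abs_sub _ _).trans (add_le_add (hδ j le_rfl) ?_)
      rw [Finset.sum_mul]
      refine (Finset.abs_sum_le_sum_abs _ _).trans (Finset.sum_le_sum fun i hi => ?_)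
      rw [mem_range] at hi
      have h1 := (hC i hi x y hx hy).2 δ (fun k hk => hδ k (by omega))
      have h1' := (hC i hi y x hy hx).1
      obtain ⟨r, hr⟩ : ∃ r, j - i = r + 1 := ⟨j - i - 1, by omega⟩
      rw [hr]
      have h2 := hx r
      have h3 := hδ r (by omega)
      have h4 := hC0 i hi
      have e2 : gq x i * x (r + 1) - gq y i * y (r + 1) = (gq x i - gq y i) * x (r + 1) +
          gq y i * (x (r + 1) - y (r + 1)) := by ring
      rw [e2]
      refine (abs_add_le _ _).trans ?_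
      rw [abs_mul, abs_mul]
      have h5 : |gq x i - gq y i| * |x (r + 1)| ≤ C i * δ := by
        calc _ ≤ |gq x i - gq y i| * 1 := mul_le_mul_of_nonneg_left h2 (abs_nonneg _)
          _ ≤ _ := by rw [mul_one]; exact h1
      have h6 : |gq y i| * |x (r + 1) - y (r + 1)| ≤ C i * δ :=
        mul_le_mul h1' h3 (abs_nonneg _) h4
      linarith

theorem DD_lip (j : ℕ) : ∃ C : ℝ, 0 ≤ C ∧ ∀ x y : ℕ → ℝ, (∀ k, |x (k + 1)| ≤ 1) → (∀ k, |y (k + 1)| ≤ 1) →
    |DD x j| ≤ C ∧ ∀ δ : ℝ, (∀ k, k ≤ j → |x (k + 1) - y (k + 1)| ≤ δ) → |DD x j - DD y j| ≤ C * δ := by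
  choose C hC0 hC using gq_lip
  refine ⟨((j : ℝ) + 1) + ∑ i ∈ range j, (j : ℝ) * (2 * C i), add_nonneg (by positivity)
    (Finset.sum_nonneg fun i hi => mul_nonneg (by positivity) (mul_nonneg two_pos.le (hC0 i))),
    fun x y hx hy => ⟨?_, fun δ hδ => ?_⟩⟩
  · unfold DD
    refine (abs_add_le _ _).trans (add_le_add ?_ ?_)
    · rw [abs_mul, abs_neg, abs_of_nonneg (by positivity : (0 : ℝ) ≤ (j : ℝ) + 1)]
      nlinarith [hx j, abs_nonneg (x (j + 1)), (by positivity : (0 : ℝ) ≤ (j : ℝ) + 1)]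
    · refine (Finset.abs_sum_le_sum_abs _ _).trans (Finset.sum_le_sum fun i hi => ?_)
      rw [mem_range] at hi
      rw [abs_mul, abs_mul, mul_assoc]
      have h1 := (hC i x y hx hy).1
      have h2 : |x (j - i)| ≤ 1 := by
        obtain ⟨r, hr⟩ : ∃ r, j - i = r + 1 := ⟨j - i - 1, by omega⟩
        rw [hr]; exact hx r
      have h3 := hC0 i
      have h4 : |(j : ℝ) - i| ≤ j := by
        have : (i : ℝ) ≤ j := by exact_mod_cast hi.le
        rw [abs_of_nonneg (by linarith)]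
        have : (0 : ℝ) ≤ i := by positivity
        linarith
      refine mul_le_mul h4 ?_ (by positivity) (by positivity)
      nlinarith [abs_nonneg (gq x i), abs_nonneg (x (j - i))]
  · have hδ0 : 0 ≤ δ := (abs_nonneg _).trans (hδ 0 (Nat.zero_le _))
    unfold DD
    have e1 : -((j : ℝ) + 1) * x (j + 1) + ∑ i ∈ range j, ((j : ℝ) - i) * gq x i * x (j - i) -
        (-((j : ℝ) + 1) * y (j + 1) + ∑ i ∈ range j, ((j : ℝ) - i) * gq y i * y (j - i))
        = -((j : ℝ) + 1) * (x (j + 1) - y (j + 1)) + ∑ i ∈ range j, ((j : ℝ) - i) *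
          (gq x i * x (j - i) - gq y i * y (j - i)) := by
      simp only [mul_sub, Finset.sum_sub_distrib]; ring_nf
    rw [e1, add_mul]
    refine (abs_add_le _ _).trans (add_le_add ?_ ?_)
    · rw [abs_mul, abs_neg, abs_of_nonneg (by positivity : (0 : ℝ) ≤ (j : ℝ) + 1)]
      exact mul_le_mul_of_nonneg_left (hδ j le_rfl) (by positivity)
    · rw [Finset.sum_mul]
      refine (Finset.abs_sum_le_sum_abs _ _).trans (Finset.sum_le_sum fun i hi => ?_)
      rw [mem_range] at hi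
      have h1 := (hC i x y hx hy).2 δ (fun k hk => hδ k (by omega))
      have h1' := (hC i y x hy hx).1
      obtain ⟨r, hr⟩ : ∃ r, j - i = r + 1 := ⟨j - i - 1, by omega⟩
      rw [hr]
      have h2 := hx r
      have h3 := hδ r (by omega)
      have h4 := hC0 i
      have e2 : gq x i * x (r + 1) - gq y i * y (r + 1) = (gq x i - gq y i) * x (r + 1) +
          gq y i * (x (r + 1) - y (r + 1)) := by ring
      rw [e2, abs_mul, mul_assoc]
      have h7 : |(j : ℝ) - i| ≤ j := by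
        have : (i : ℝ) ≤ j := by exact_mod_cast hi.le
        rw [abs_of_nonneg (by linarith)]
        have : (0 : ℝ) ≤ i := by positivity
        linarith
      refine mul_le_mul h7 ?_ (abs_nonneg _) (by positivity)
      refine (abs_add_le _ _).trans ?_
      rw [abs_mul, abs_mul]
      have h5 : |gq x i - gq y i| * |x (r + 1)| ≤ C i * δ := by
        calc _ ≤ |gq x i - gq y i| * 1 := mul_le_mul_of_nonneg_left h2 (abs_nonneg _)
          _ ≤ _ := by rw [mul_one]; exact h1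
      have h6 : |gq y i| * |x (r + 1) - y (r + 1)| ≤ C i * δ :=
        mul_le_mul h1' h3 (abs_nonneg _) h4
      linarith

theorem mm_abs (t : ℝ) (ht : 0 ≤ t) (k : ℕ) : |mm t (k + 1)| ≤ 1 := by
  rw [abs_of_nonneg (mm_nonneg t ht _)]
  exact mm_le_one t ht _

/-- a Lipschitz constant for the first `P` moments -/
theorem mm_lip (P : ℕ) : ∃ C : ℝ, 0 ≤ C ∧ ∀ j, j < P → ∀ s t : ℝ, 0 ≤ s → 0 ≤ t →
    |mm s (j + 1) - mm t (j + 1)| ≤ C * |s - t| := by
  choose C hC0 hC using DD_lip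
  refine ⟨∑ j ∈ range P, C j, Finset.sum_nonneg fun i _ => hC0 i, fun j hj s t hs ht => ?_⟩
  have h1 : ∀ u ∈ Set.Ici (0 : ℝ), ‖DD (mm u) j‖ ≤ C j := by
    intro u hu
    rw [Real.norm_eq_abs]
    exact (hC j (mm u) (mm u) (mm_abs u hu) (mm_abs u hu)).1
  have h2 := (convex_Ici (0 : ℝ)).norm_image_sub_le_of_norm_hasDerivWithin_le
    (f := fun t => mm t (j + 1)) (f' := fun u => DD (mm u) j) (C := C j)
    (fun u _ => (deriv_mm u j).hasDerivWithinAt) h1 (Set.mem_Ici.2 ht) (Set.mem_Ici.2 hs)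
  rw [Real.norm_eq_abs, Real.norm_eq_abs] at h2
  refine h2.trans (mul_le_mul_of_nonneg_right ?_ (abs_nonneg _))
  exact Finset.single_le_sum (f := C) (fun i _ => hC0 i) (mem_range.2 hj)

/-- one step of the differential equation -/
theorem mm_step (P : ℕ) : ∃ C : ℝ, 0 ≤ C ∧ ∀ j, j < P → ∀ t h : ℝ, 0 ≤ t → 0 ≤ h →
    |mm (t + h) (j + 1) - mm t (j + 1) - h * DD (mm t) j| ≤ C * h ^ 2 := by
  choose C hC0 hC using DD_lip
  obtain ⟨C1, hC1, h1⟩ := mm_lip P
  refine ⟨∑ j ∈ range P, C j * C1, Finset.sum_nonneg fun i _ => mul_nonneg (hC0 i) hC1,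
    fun j hj t h ht hh => ?_⟩
  have h2 : ∀ u ∈ Set.Icc t (t + h), ‖DD (mm u) j - DD (mm t) j‖ ≤ C j * (C1 * h) := by
    intro u hu
    rw [Real.norm_eq_abs]
    refine (hC j (mm u) (mm t) (mm_abs u (ht.trans hu.1)) (mm_abs t ht)).2 _ (fun k hk => ?_)
    refine (h1 k (by omega) u t (ht.trans hu.1) ht).trans ?_
    refine mul_le_mul_of_nonneg_left ?_ hC1
    rw [abs_of_nonneg (by linarith [hu.1])]
    linarith [hu.2]
  have h3 := (convex_Icc t (t + h)).norm_image_sub_le_of_norm_hasDerivWithin_le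
    (f := fun u => mm u (j + 1) - u * DD (mm t) j) (f' := fun u => DD (mm u) j - DD (mm t) j)
    (C := C j * (C1 * h))
    (fun u _ => by
      have h4 := (deriv_mm u j).sub ((hasDerivAt_id u).mul_const (DD (mm t) j))
      simp only [id, one_mul] at h4
      exact h4.hasDerivWithinAt) h2 (Set.left_mem_Icc.2 (by linarith)) (Set.right_mem_Icc.2 (by linarith))
  rw [Real.norm_eq_abs, Real.norm_eq_abs] at h3
  have e1 : mm (t + h) (j + 1) - (t + h) * DD (mm t) j - (mm t (j + 1) - t * DD (mm t) j) =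
      mm (t + h) (j + 1) - mm t (j + 1) - h * DD (mm t) j := by ring
  rw [e1, add_sub_cancel_left, abs_of_nonneg hh] at h3
  refine h3.trans ?_
  have h5 : C j * C1 ≤ ∑ j ∈ range P, C j * C1 :=
    Finset.single_le_sum (f := fun j => C j * C1) (fun i _ => mul_nonneg (hC0 i) hC1) (mem_range.2 hj)
  nlinarith [sq_nonneg h]

end Pool.Agent.Q257.PH
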