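import Pool.Agent.Q257.PH.Det

/-! The random chain. -/

set_option autoImplicit false

namespace Pool.Agent.Q257.PH

open Finset Matrix MeasureTheory ProbabilityTheory Filter Topology
open scoped ComplexOrder

variable {N : ℕ}

/-- the Borel sigma-algebra of the space of complex `N × N` matrices -/
noncomputable instance matMS (N : ℕ) : MeasurableSpace (Matrix (Fin N) (Fin N) ℂ) := borel _

instance matBS (N : ℕ) : BorelSpace (Matrix (Fin N) (Fin N) ℂ) := ⟨rfl⟩

instance matSC (N : ℕ) : SecondCountableTopology (Matrix (Fin N) (Fin N) ℂ) :=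
  inferInstanceAs (SecondCountableTopology (Fin N → Fin N → ℂ))

/-- `S 0, S 1, ...` are independent Haar distributed random unitary `N × N` matrices -/
structure HaarFamily {Ω : Type*} [MeasurableSpace Ω] (μ : Measure Ω)
    (S : ℕ → Ω → Matrix (Fin N) (Fin N) ℂ) : Prop where
  prob : IsProbabilityMeasure μ
  meas : ∀ i, Measurable (S i)
  unitary : ∀ i ω, S i ω ∈ unitaryGroup (Fin N) ℂ
  indep : iIndepFun S μ
  haar : ∀ i, ∀ U ∈ unitaryGroup (Fin N) ℂ, ∀ V ∈ unitaryGroup (Fin N) ℂ,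
    μ.map (fun ω => U * S i ω * V) = μ.map (S i)

/-- the products `B L = (P S_L) ⋯ (P S_1)`, where `S_i = s (i - 1)` -/
def Bp (P : Matrix (Fin N) (Fin N) ℂ) (s : ℕ → Matrix (Fin N) (Fin N) ℂ) : ℕ → Matrix (Fin N) (Fin N) ℂ
  | 0 => 1
  | L + 1 => P * s L * Bp P s L

/-- `A L = B L (B L)ᴴ` -/
def Ap (P : Matrix (Fin N) (Fin N) ℂ) (s : ℕ → Matrix (Fin N) (Fin N) ℂ) : ℕ → Matrix (Fin N) (Fin N) ℂ
  | 0 => 1
  | L + 1 => P * (s L * Ap P s L * (s L)ᴴ) * P

theorem Ap_eq (P : Matrix (Fin N) (Fin N) ℂ) (hP : Pᴴ = P) (s : ℕ → Matrix (Fin N) (Fin N) ℂ) (L : ℕ) :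
    Ap P s L = Bp P s L * (Bp P s L)ᴴ := by
  induction L with
  | zero => simp [Ap, Bp]
  | succ L ih =>
    rw [Ap, Bp, ih, conjTranspose_mul, conjTranspose_mul, hP]
    noncomm_ring

theorem Ap_good (P : Matrix (Fin N) (Fin N) ℂ) (hP2 : P * P = P) (hP : Pᴴ = P)
    (s : ℕ → Matrix (Fin N) (Fin N) ℂ) (hs : ∀ i, s i ∈ unitaryGroup (Fin N) ℂ) (L : ℕ) :
    Good (Ap P s L) := by
  induction L with
  | zero => exact good_one
  | succ L ih => exact good_compress (good_conj ih (by
      have := mem_unitaryGroup_iff.1 (hs L)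
      rwa [star_eq_conjTranspose] at this)) hP2 hP

theorem Bp_good (P : Matrix (Fin N) (Fin N) ℂ) (hP2 : P * P = P) (hP : Pᴴ = P)
    (s : ℕ → Matrix (Fin N) (Fin N) ℂ) (hs : ∀ i, s i ∈ unitaryGroup (Fin N) ℂ) (L : ℕ) :
    Good ((Bp P s L)ᴴ * Bp P s L) := by
  refine ⟨posSemidef_conjTranspose_mul_self _, ?_⟩
  induction L with
  | zero =>
    simp only [Bp, conjTranspose_one, mul_one, sub_self]
    exact PosSemidef.zero
  | succ L ih =>
    have h0 := mem_unitaryGroup_iff'.1 (hs L)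
    rw [star_eq_conjTranspose] at h0
    have h1 : 1 - (Bp P s (L + 1))ᴴ * Bp P s (L + 1) = (1 - (Bp P s L)ᴴ * Bp P s L) +
        (s L * Bp P s L)ᴴ * (1 - P) * (s L * Bp P s L) := by
      have h2 : (Bp P s (L + 1))ᴴ * Bp P s (L + 1) = (s L * Bp P s L)ᴴ * (P * P) * (s L * Bp P s L) := by
        rw [Bp, mul_assoc P, conjTranspose_mul, hP]
        noncomm_ring
      have h3 : (s L * Bp P s L)ᴴ * (1 - P) * (s L * Bp P s L) =
          (Bp P s L)ᴴ * ((s L)ᴴ * s L) * Bp P s L - (s L * Bp P s L)ᴴ * P * (s L * Bp P s L) := by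
        rw [conjTranspose_mul]
        noncomm_ring
      rw [h2, h3, hP2, h0, mul_one]
      abel
    rw [h1]
    exact ih.add ((psd_proj (compl_proj hP2 hP).1 (compl_proj hP2 hP).2).conjTranspose_mul_mul_same _)

/-- the traces of the powers agree -/
theorem trace_swap (B C : Matrix (Fin N) (Fin N) ℂ) (p : ℕ) :
    ((B * C) ^ (p + 1)).trace = ((C * B) ^ (p + 1)).trace := by
  have h1 : ∀ p : ℕ, (B * C) ^ (p + 1) = B * (C * B) ^ p * C := by
    intro p
    induction p with
    | zero => simp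
    | succ p ih =>
      rw [pow_succ, ih, pow_succ]
      noncomm_ring
  rw [h1, trace_mul_comm, ← mul_assoc, pow_succ']

theorem Ap_step (P : Matrix (Fin N) (Fin N) ℂ) (hP2 : P * P = P) (hP : Pᴴ = P) (e : Fin N → ℂ)
    (he : 1 - P = vecMulVec e (star e)) (s : ℕ → Matrix (Fin N) (Fin N) ℂ)
    (hs : ∀ i, s i ∈ unitaryGroup (Fin N) ℂ) (L j : ℕ) :
    am (Ap P s (L + 1)) (j + 1) = am (Ap P s L) (j + 1) + DD (xm (Ap P s L) ((s L)ᴴ *ᵥ e)) j / N := by
  rw [← am_step (Ap_good P hP2 hP s hs L)]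
  unfold am
  congr 2
  rw [Ap, trace_compress _ _ hP2]
  have h1 := mem_unitaryGroup_iff.1 (hs L)
  have h1' := mem_unitaryGroup_iff'.1 (hs L)
  rw [star_eq_conjTranspose] at h1 h1'
  have h2 : 1 - vecMulVec ((s L)ᴴ *ᵥ e) (star ((s L)ᴴ *ᵥ e)) = (s L)ᴴ * P * s L := by
    have h3 : vecMulVec ((s L)ᴴ *ᵥ e) (star ((s L)ᴴ *ᵥ e)) = (s L)ᴴ * vecMulVec e (star e) * s L := by
      rw [mul_vecMulVec, vecMulVec_mul, star_mulVec, conjTranspose_conjTranspose]
    rw [h3, ← he, mul_sub, sub_mul, mul_one, h1']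
    abel
  rw [h2]
  have h4 : s L * Ap P s L * (s L)ᴴ * P = s L * (Ap P s L * (s L)ᴴ * P) := by noncomm_ring
  rw [h4, trace_swap]
  congr 2
  noncomm_ring

theorem Ap_congr (P : Matrix (Fin N) (Fin N) ℂ) (s s' : ℕ → Matrix (Fin N) (Fin N) ℂ) (L : ℕ)
    (h : ∀ i, i < L → s i = s' i) : Ap P s L = Ap P s' L := by
  induction L with
  | zero => rfl
  | succ L ih => rw [Ap, Ap, ih fun i hi => h i (by omega), h L (Nat.lt_succ_self L)]

theorem Ap_cont (P : Matrix (Fin N) (Fin N) ℂ) (L : ℕ) :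
    Continuous (fun s : ℕ → Matrix (Fin N) (Fin N) ℂ => Ap P s L) := by
  induction L with
  | zero => exact continuous_const
  | succ L ih =>
    have h1 : Continuous fun s : ℕ → Matrix (Fin N) (Fin N) ℂ => s L := continuous_apply L
    exact ((continuous_const.mul ((h1.mul ih).mul h1.matrix_conjTranspose))).mul continuous_const

theorem am_cont (k : ℕ) : Continuous (fun A : Matrix (Fin N) (Fin N) ℂ => am A k) := by
  unfold am
  exact (Complex.continuous_re.comp (continuous_id.pow k).matrix_trace).div_const _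

theorem xm_cont (k : ℕ) :
    Continuous (fun p : Matrix (Fin N) (Fin N) ℂ × (Fin N → ℂ) => xm p.1 p.2 k) := by
  unfold xm
  refine Complex.continuous_re.comp ?_
  exact continuous_snd.star.dotProduct ((continuous_fst.pow k).matrix_mulVec continuous_snd)

/-- the law of the random vector -/
theorem sph_law {Ω : Type*} [MeasurableSpace Ω] {μ : Measure Ω} {S : ℕ → Ω → Matrix (Fin N) (Fin N) ℂ}
    (h : HaarFamily μ S) (e : Fin N → ℂ) (he : star e ⬝ᵥ e = 1) (i : ℕ) :
    Sph (μ.map (fun ω => (S i ω)ᴴ *ᵥ e)) := by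
  have hc : Continuous fun s : Matrix (Fin N) (Fin N) ℂ => sᴴ *ᵥ e :=
    continuous_id.matrix_conjTranspose.matrix_mulVec continuous_const
  have hm : Measurable fun ω => (S i ω)ᴴ *ᵥ e := hc.measurable.comp (h.meas i)
  have := h.prob
  refine ⟨Measure.isProbabilityMeasure_map hm.aemeasurable, ?_, ?_⟩
  · rw [ae_map_iff hm.aemeasurable]
    · refine Filter.Eventually.of_forall fun ω => ?_
      have h1 := quad_unit (h.unitary i ω) e
      have h2 : ((∑ i, Ac i e : ℝ) : ℂ) = 1 := by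
        rw [← he]
        unfold dotProduct Ac
        push_cast
        refine Finset.sum_congr rfl fun i _ => ?_
        rw [Pi.star_apply, mul_comm]
        exact (Complex.mul_conj _).symm
      have h3 : ∑ i, Ac i e = 1 := by exact_mod_cast h2
      rw [h3] at h1
      exact h1
    · exact measurableSet_eq_fun (by fun_prop) measurable_const
  · intro U hU
    have hcU : Continuous fun v : Fin N → ℂ => U *ᵥ v := continuous_const.matrix_mulVec continuous_id
    rw [Measure.map_map hcU.measurable hm]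
    have hUs : Uᴴ ∈ unitaryGroup (Fin N) ℂ := by
      rw [mem_unitaryGroup_iff, star_eq_conjTranspose, conjTranspose_conjTranspose]
      have := mem_unitaryGroup_iff'.1 hU
      rwa [star_eq_conjTranspose] at this
    have h1 : ((fun v : Fin N → ℂ => U *ᵥ v) ∘ fun ω => (S i ω)ᴴ *ᵥ e) =
        (fun s : Matrix (Fin N) (Fin N) ℂ => sᴴ *ᵥ e) ∘ (fun ω => 1 * S i ω * Uᴴ) := by
      funext ω
      simp only [Function.comp, one_mul, conjTranspose_mul, conjTranspose_conjTranspose, mulVec_mulVec]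
    rw [h1, ← Measure.map_map hc.measurable, h.haar i 1 (one_mem _) Uᴴ hUs,
      Measure.map_map hc.measurable (h.meas i)]
    · rfl
    · exact (continuous_mul_const _).measurable.comp ((continuous_const_mul _).measurable.comp (h.meas i))

/-- the mean deviation of a quadratic form at a uniform unit vector -/
theorem dev {ρ : Measure (Fin N → ℂ)} (h : Sph ρ) (hN : 1 ≤ N) {A : Matrix (Fin N) (Fin N) ℂ} (hA : Good A)
    (k : ℕ) : ∫⁻ v, ENNReal.ofReal |xm A v k - am A k| ∂ρ ≤ ENNReal.ofReal (1 / Real.sqrt N) := by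
  have := h.prob
  obtain ⟨U, hU, hq⟩ := quad_pow hA hA.1.1
  obtain ⟨l, hl⟩ : ∃ l : Fin N → ℝ, l = fun i => hA.1.1.eigenvalues i ^ k := ⟨_, rfl⟩
  have hl1 : ∀ i, |l i| ≤ 1 := by
    intro i
    have := eig_le hA hA.1.1 i
    rw [hl]
    simp only
    rw [abs_of_nonneg (pow_nonneg this.1 k)]
    exact pow_le_one₀ this.1 this.2
  have hUs : Uᴴ ∈ unitaryGroup (Fin N) ℂ := by
    rw [mem_unitaryGroup_iff, star_eq_conjTranspose, conjTranspose_conjTranspose]
    have := mem_unitaryGroup_iff'.1 hU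
    rwa [star_eq_conjTranspose] at this
  obtain ⟨φ, hφ⟩ : ∃ φ : (Fin N → ℂ) → ℝ, φ = fun v => ∑ i, l i * Ac i v - (∑ i, l i) / N := ⟨_, rfl⟩
  have hφc : Continuous φ := by
    rw [hφ]
    exact (continuous_finsetSum _ fun i _ => continuous_const.mul (cont_Ac i)).sub continuous_const
  have h1 : ∀ v, xm A v k - am A k = φ (Uᴴ *ᵥ v) := by
    intro v
    unfold xm am
    rw [hq, Complex.ofReal_re, trace_pow hA hA.1.1, Complex.ofReal_re, hφ, hl]
  simp only [h1]
  have hcU : Continuous fun v : Fin N → ℂ => Uᴴ *ᵥ v := continuous_const.matrix_mulVec continuous_id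
  have h2 : ∫⁻ v, ENNReal.ofReal |φ (Uᴴ *ᵥ v)| ∂ρ = ∫⁻ v, ENNReal.ofReal |φ v| ∂ρ := by
    conv_rhs => rw [← h.inv Uᴴ hUs]
    rw [lintegral_map (by fun_prop) hcU.measurable]
  rw [h2]
  have hb : ∀ v, (∀ i, Ac i v ≤ 1) → |φ v| ≤ 2 * N := by
    intro v hv
    rw [hφ]
    refine (abs_sub _ _).trans ?_
    have e1 : |∑ i, l i * Ac i v| ≤ N := by
      refine (Finset.abs_sum_le_sum_abs _ _).trans ?_
      calc ∑ i, |l i * Ac i v| ≤ ∑ _i : Fin N, (1 : ℝ) := Finset.sum_le_sum fun i _ => by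
            rw [abs_mul, abs_of_nonneg (Ac_nonneg i v)]
            exact mul_le_one₀ (hl1 i) (Ac_nonneg i v) (hv i)
        _ = N := by simp
    have e2 : |(∑ i, l i) / N| ≤ N := by
      rw [abs_div, Nat.abs_cast]
      refine (div_le_self (abs_nonneg _) (by exact_mod_cast hN)).trans ?_
      refine (Finset.abs_sum_le_sum_abs _ _).trans ?_
      calc ∑ i, |l i| ≤ ∑ _i : Fin N, (1 : ℝ) := Finset.sum_le_sum fun i _ => hl1 i
        _ = N := by simp
    linarith
  have hi1 : Integrable φ ρ := int_bd h φ hφc _ hb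
  have hi2 : Integrable (fun v => φ v ^ 2) ρ := int_bd h _ (hφc.pow 2) ((2 * N) ^ 2) fun v hv => by
    rw [abs_pow]
    exact pow_le_pow_left₀ (abs_nonneg _) (hb v hv) 2
  rw [← ofReal_integral_eq_lintegral_ofReal hi1.abs (Filter.Eventually.of_forall fun _ => abs_nonneg _)]
  refine ENNReal.ofReal_le_ofReal ?_
  have hv := variance h hN l hl1
  have hv' : ∫ v, φ v ^ 2 ∂ρ ≤ 1 / N := by rw [hφ]; exact hv
  have hN0 : (0 : ℝ) < N := by positivity
  obtain ⟨s, hs⟩ : ∃ s, s = Real.sqrt N := ⟨_, rfl⟩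
  have hs0 : 0 < s := by rw [hs]; exact Real.sqrt_pos.2 hN0
  have hss : s * s = N := by rw [hs]; exact Real.mul_self_sqrt hN0.le
  rw [← hs]
  have h3 : ∫ v, |φ v| ∂ρ ≤ ∫ v, (s * φ v ^ 2 + 1 / s) / 2 ∂ρ := by
    refine integral_mono hi1.abs (((hi2.const_mul s).add (integrable_const _)).div_const 2) fun v => ?_
    simp only
    rw [le_div_iff₀ two_pos, ← sq_abs]
    have e1 : s * |φ v| ^ 2 + 1 / s - |φ v| * 2 = (s * |φ v| - 1) ^ 2 / s := by
      field_simp
      ring
    have e2 : 0 ≤ (s * |φ v| - 1) ^ 2 / s := by positivity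
    linarith
  refine h3.trans ?_
  rw [integral_div, integral_add (hi2.const_mul s) (integrable_const _), integral_const_mul]
  simp only [integral_const, probReal_univ, smul_eq_mul, one_mul]
  have h4 : s * ∫ v, φ v ^ 2 ∂ρ ≤ s * (1 / N) := mul_le_mul_of_nonneg_left hv' hs0.le
  have h5 : s * (1 / (N : ℝ)) = 1 / s := by
    rw [← hss]; field_simp
  rw [h5] at h4
  linarith

theorem indep_step {Ω : Type*} [MeasurableSpace Ω] {μ : Measure Ω} {S : ℕ → Ω → Matrix (Fin N) (Fin N) ℂ}
    (h : HaarFamily μ S) (P : Matrix (Fin N) (Fin N) ℂ) (L : ℕ) :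
    IndepFun (fun ω => Ap P (fun i => S i ω) L) (S L) μ := by
  have := h.prob
  have h1 := h.indep.indepFun_finset (Finset.range L) {L} (by simp) h.meas
  obtain ⟨F, hF⟩ : ∃ F : ((i : (Finset.range L)) → Matrix (Fin N) (Fin N) ℂ) → (ℕ → Matrix (Fin N) (Fin N) ℂ),
      F = fun g i => if hi : i ∈ Finset.range L then g ⟨i, hi⟩ else 1 := ⟨_, rfl⟩
  have hFm : Measurable F := by
    rw [hF]
    refine measurable_pi_iff.2 fun i => ?_
    by_cases hi : i ∈ Finset.range L
    · simp only [hi, dite_true]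
      exact measurable_pi_apply _
    · simp only [hi, dite_false]
      exact measurable_const
  have h2 := h1.comp (φ := fun g => Ap P (F g) L)
    (ψ := fun g : ((i : ({L} : Finset ℕ)) → Matrix (Fin N) (Fin N) ℂ) => g ⟨L, Finset.mem_singleton_self L⟩)
    ((Ap_cont P L).measurable.comp hFm)
    (measurable_pi_apply (X := fun _ : ({L} : Finset ℕ) => Matrix (Fin N) (Fin N) ℂ)
      (⟨L, Finset.mem_singleton_self L⟩ : ({L} : Finset ℕ)))
  have e1 : (fun ω => Ap P (fun i => S i ω) L) = (fun g => Ap P (F g) L) ∘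
      fun ω (i : (Finset.range L)) => S i ω := by
    funext ω
    simp only [Function.comp]
    refine Ap_congr P _ _ L fun i hi => ?_
    rw [hF]
    simp only [Finset.mem_range, hi, dite_true]
  rw [e1]
  exact h2

theorem dev_step {Ω : Type*} [MeasurableSpace Ω] {μ : Measure Ω} {S : ℕ → Ω → Matrix (Fin N) (Fin N) ℂ}
    (h : HaarFamily μ S) (hN : 1 ≤ N) (P : Matrix (Fin N) (Fin N) ℂ) (hP2 : P * P = P) (hP : Pᴴ = P)
    (e : Fin N → ℂ) (he : star e ⬝ᵥ e = 1) (L k : ℕ) :
    ∫⁻ ω, ENNReal.ofReal |xm (Ap P (fun i => S i ω) L) ((S L ω)ᴴ *ᵥ e) k - am (Ap P (fun i => S i ω) L) k| ∂μ ≤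
      ENNReal.ofReal (1 / Real.sqrt N) := by
  have := h.prob
  have hm1 : Measurable fun ω => Ap P (fun i => S i ω) L :=
    (Ap_cont P L).measurable.comp (measurable_pi_iff.2 fun i => h.meas i)
  have h1 := (indep_step h P L).map_prod_eq_prod_map_map hm1.aemeasurable (h.meas L).aemeasurable
  obtain ⟨H, hH⟩ : ∃ H : Matrix (Fin N) (Fin N) ℂ × Matrix (Fin N) (Fin N) ℂ → ENNReal,
      H = fun p => ENNReal.ofReal |xm p.1 (p.2ᴴ *ᵥ e) k - am p.1 k| := ⟨_, rfl⟩
  have hHc : Continuous H := by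
    rw [hH]
    refine ENNReal.continuous_ofReal.comp (continuous_abs.comp ?_)
    refine Continuous.sub ?_ ((am_cont k).comp continuous_fst)
    exact (xm_cont k).comp (continuous_fst.prodMk
      (continuous_snd.matrix_conjTranspose.matrix_mulVec continuous_const))
  have h2 : ∫⁻ ω, H (Ap P (fun i => S i ω) L, S L ω) ∂μ ≤ ENNReal.ofReal (1 / Real.sqrt N) := by
    rw [← lintegral_map (f := H) (g := fun ω => (Ap P (fun i => S i ω) L, S L ω)) hHc.measurable
      (hm1.prodMk (h.meas L)), h1]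
    have : IsProbabilityMeasure (μ.map (S L)) := Measure.isProbabilityMeasure_map (h.meas L).aemeasurable
    have : IsProbabilityMeasure (μ.map fun ω => Ap P (fun i => S i ω) L) :=
      Measure.isProbabilityMeasure_map hm1.aemeasurable
    rw [lintegral_prod _ hHc.measurable.aemeasurable, lintegral_map _ hm1]
    · calc ∫⁻ ω, ∫⁻ s, H (Ap P (fun i => S i ω) L, s) ∂(μ.map (S L)) ∂μ ≤
          ∫⁻ _ω, ENNReal.ofReal (1 / Real.sqrt N) ∂μ := by
            refine lintegral_mono fun ω => ?_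
            have hG := Ap_good P hP2 hP (fun i => S i ω) (fun i => h.unitary i ω) L
            have h3 := dev (sph_law h e he L) hN hG k
            rw [lintegral_map] at h3
            · have hc2 : Continuous fun s : Matrix (Fin N) (Fin N) ℂ => H (Ap P (fun i => S i ω) L, s) :=
                hHc.comp (continuous_const.prodMk continuous_id)
              rw [lintegral_map hc2.measurable (h.meas L), hH]
              exact h3
            · refine (ENNReal.continuous_ofReal.comp (continuous_abs.comp ?_)).measurable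
              exact ((xm_cont k).comp (continuous_const.prodMk continuous_id)).sub continuous_const
            · exact (continuous_id.matrix_conjTranspose.matrix_mulVec continuous_const).measurable.comp
                (h.meas L)
        _ = ENNReal.ofReal (1 / Real.sqrt N) := by simp
    · exact hHc.measurable.lintegral_prod_right'
  rw [hH] at h2
  exact h2

end Pool.Agent.Q257.PH
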